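import Pool.Agent.W572.Density

set_option autoImplicit false

namespace Pool.Agent.W572

open MvPolynomial

variable {F : Type*} [Field F] {σ : Type*}

/-- Polynomials with coefficients in the subfield `S`. -/
noncomputable def RS (S : Subfield F) : Subring (MvPolynomial σ F) :=
  (MvPolynomial.map S.subtype : MvPolynomial σ S →+* MvPolynomial σ F).range

/-- Polynomials in `t` whose coefficients are polynomials with coefficients in `S`. -/
noncomputable def PS (S : Subfield F) : Subring (Polynomial (MvPolynomial σ F)) :=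
  (Polynomial.mapRingHom (RS (σ := σ) S).subtype).range

lemma RS_of_coeff {S : Subfield F} {P : MvPolynomial σ F} (h : ∀ m, coeff m P ∈ S) :
    P ∈ RS (σ := σ) S := by
  change P ∈ Set.range (MvPolynomial.map S.subtype)
  rw [MvPolynomial.mem_range_map_iff_coeffs_subset]
  intro c hc
  rw [Finset.mem_coe, MvPolynomial.mem_coeffs_iff] at hc
  obtain ⟨m, _, rfl⟩ := hc
  exact ⟨⟨_, h m⟩, rfl⟩

lemma RS_coeff {S : Subfield F} {P : MvPolynomial σ F} (h : P ∈ RS (σ := σ) S) (m : σ →₀ ℕ) :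
    coeff m P ∈ S := by
  obtain ⟨P', rfl⟩ := h
  rw [coeff_map]
  exact SetLike.coe_mem _

lemma RS_eval {S : Subfield F} {P : MvPolynomial σ F} (h : P ∈ RS (σ := σ) S) {x : σ → F}
    (hx : ∀ l, x l ∈ S) : eval x P ∈ S := by
  rw [eval_eq]
  exact S.sum_mem (fun m _ => S.mul_mem (RS_coeff h m) (S.prod_mem (fun l _ => S.pow_mem (hx l) _)))

lemma PS_coeff {S : Subfield F} {p : Polynomial (MvPolynomial σ F)} (h : p ∈ PS (σ := σ) S)
    (j : ℕ) : p.coeff j ∈ RS (σ := σ) S := by
  obtain ⟨p', rfl⟩ := h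
  rw [Polynomial.coe_mapRingHom, Polynomial.coeff_map]
  exact SetLike.coe_mem _

lemma PS_of_coeff {S : Subfield F} {p : Polynomial (MvPolynomial σ F)}
    (h : ∀ j, p.coeff j ∈ RS (σ := σ) S) : p ∈ PS (σ := σ) S := by
  rw [PS, Polynomial.mem_map_range]
  intro j
  exact ⟨⟨_, h j⟩, rfl⟩

lemma PS_eval {S : Subfield F} {p : Polynomial (MvPolynomial σ F)} (h : p ∈ PS (σ := σ) S)
    {x : σ → F} (hx : ∀ l, x l ∈ S) {t : F} (ht : t ∈ S) : (p.map (eval x)).eval t ∈ S := by
  rw [Polynomial.eval_eq_sum_range]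
  refine S.sum_mem (fun j _ => S.mul_mem ?_ (S.pow_mem ht _))
  rw [Polynomial.coeff_map]
  exact RS_eval (PS_coeff h j) hx

lemma PS_aeval {S : Subfield F} {Φ : MvPolynomial σ F} (hΦ : Φ ∈ RS (σ := σ) S)
    {lam : σ → Polynomial (MvPolynomial σ F)} (hl : ∀ l, lam l ∈ PS (σ := σ) S) :
    (aeval lam) Φ ∈ PS (σ := σ) S := by
  obtain ⟨Φ', rfl⟩ := hΦ
  induction Φ' using MvPolynomial.induction_on with
  | C a =>
    rw [map_C, algHom_C]
    have : (algebraMap F (Polynomial (MvPolynomial σ F))) (S.subtype a) =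
      Polynomial.C (C (S.subtype a)) := rfl
    rw [this]
    apply PS_of_coeff
    intro j
    rw [Polynomial.coeff_C]
    split_ifs
    · exact ⟨C a, map_C _ _⟩
    · exact Subring.zero_mem _
  | add p q hp hq => rw [map_add, map_add]; exact Subring.add_mem _ hp hq
  | mul_X p i hp => rw [map_mul, map_X, map_mul, aeval_X]; exact Subring.mul_mem _ hp (hl i)

end Pool.Agent.W572
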