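import Pool.Agent.W572.Cover

set_option autoImplicit false

namespace Pool.Agent.W572

open MvPolynomial AlgebraicGeometry CategoryTheory

section
variable {F : Type*} [Field F] {n : ℕ}

/-- The family of lines parallel to the `i`-th coordinate axis. -/
noncomputable def coordLines (i : Fin n) : CurveFamily F n where
  curve := fun l => Polynomial.C (X l) + if l = i then Polynomial.X else 0
  base := by
    intro l
    split_ifs <;> simp

lemma coordLines_velocity (i : Fin n) : (coordLines (F := F) i).velocity = pderiv i := by
  apply MvPolynomial.derivation_ext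
  intro l
  rw [CurveFamily.velocity, mkDerivation_X, pderiv_X]
  change (Polynomial.C (X l) + if l = i then Polynomial.X else 0 :
    Polynomial (MvPolynomial (Fin n) F)).coeff 1 = _
  rw [Polynomial.coeff_add, Polynomial.coeff_C]
  by_cases h : l = i
  · subst h; simp
  · simp [h]

lemma coordLines_natDegree (i : Fin n) (Φ : MvPolynomial (Fin n) F) :
    ((coordLines i).restrict Φ).natDegree ≤ Φ.degreeOf i := by
  classical
  rw [CurveFamily.restrict, aeval_def, eval₂_eq']
  refine Polynomial.natDegree_sum_le_of_forall_le _ _ (fun m hm => ?_)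
  have h1 : (algebraMap F (Polynomial (MvPolynomial (Fin n) F))) (coeff m Φ) =
    Polynomial.C (C (coeff m Φ)) := rfl
  rw [h1]
  refine (Polynomial.natDegree_C_mul_le _ _).trans ?_
  refine (Polynomial.natDegree_prod_le _ _).trans ?_
  calc ∑ l, ((coordLines (F := F) i).curve l ^ m l).natDegree
      ≤ ∑ l, (if l = i then m i else 0) := by
        refine Finset.sum_le_sum (fun l _ => ?_)
        refine (Polynomial.natDegree_pow_le).trans ?_
        by_cases h : l = i
        · subst h
          rw [if_pos rfl]
          have : ((coordLines (F := F) l).curve l).natDegree ≤ 1 := by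
            change (Polynomial.C (X l) + if l = l then Polynomial.X else 0 :
              Polynomial (MvPolynomial (Fin n) F)).natDegree ≤ 1
            rw [if_pos rfl, add_comm]
            exact (Polynomial.natDegree_X_add_C (X l)).le
          calc m l * _ ≤ m l * 1 := Nat.mul_le_mul_left _ this
            _ = m l := mul_one _
        · rw [if_neg h]
          have : ((coordLines (F := F) i).curve l).natDegree = 0 := by
            change (Polynomial.C (X l) + if l = i then Polynomial.X else 0 :
              Polynomial (MvPolynomial (Fin n) F)).natDegree = 0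
            rw [if_neg h, add_zero, Polynomial.natDegree_C]
          rw [this, mul_zero]
    _ = m i := by simp
    _ ≤ Φ.degreeOf i := by
        rw [degreeOf_eq_sup]
        exact Finset.le_sup (f := fun m : Fin n →₀ ℕ => m i) hm

lemma coordLines_generate (r : Fin n → F) :
    BracketGenerating (fun i : Fin n => coordLines (F := F) i) r := by
  rw [BracketGenerating, eq_top_iff]
  rw [← (Pi.basisFun F (Fin n)).span_eq, Submodule.span_le]
  rintro _ ⟨i, rfl⟩
  apply Submodule.subset_span
  refine ⟨pderiv i, ?_, ?_⟩
  · rw [← coordLines_velocity]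
    exact LieSubalgebra.subset_lieSpan ⟨i, rfl⟩
  · funext l
    rw [pderiv_X, Pi.basisFun_apply]
    by_cases h : l = i
    · subst h; simp
    · simp [h]

/-- A reduced component of the branch divisor involving all variables has a good point. -/
theorem exists_good_point [IsAlgClosed F] [CharZero F] (Φ P : MvPolynomial (Fin n) F)
    (hP : Irreducible P) (hdvd : P ∣ Φ) (hsq : ¬ P ^ 2 ∣ Φ) (hvar : ∀ i, P.degreeOf i ≠ 0) :
    ∃ r : Fin n → F, eval r Φ = 0 ∧ ∀ i, eval r (pderiv i Φ) ≠ 0 := by
  classical
  obtain ⟨Q, rfl⟩ := hdvd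
  have hQ : ¬ P ∣ Q := fun ⟨R, hR⟩ => hsq ⟨R, by rw [hR]; ring⟩
  have hPp : Prime P := hP.prime
  have hpd : ∀ i, ¬ P ∣ pderiv i P := by
    intro i hi
    have h0 : pderiv i P ≠ 0 := by
      intro h
      apply hvar i
      rw [degreeOf_eq_sup, ← Nat.le_zero]
      refine Finset.sup_le (fun m hm => ?_)
      by_contra hmi
      have h1 := congrArg (coeff (m - Finsupp.single i 1)) h
      rw [coeff_pderiv, coeff_zero] at h1
      have h3 : m - Finsupp.single i 1 + Finsupp.single i 1 = m := by
        apply tsub_add_cancel_of_le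
        rw [Finsupp.single_le_iff]
        omega
      rw [h3] at h1
      rcases mul_eq_zero.mp h1 with h4 | h4
      · exact (mem_support_iff.mp hm) h4
      · exact Nat.cast_add_one_ne_zero _ h4
    obtain ⟨R, hR⟩ := hi
    have hR0 : R ≠ 0 := by rintro rfl; rw [mul_zero] at hR; exact h0 hR
    have h1 : (pderiv i P).degreeOf i = P.degreeOf i + R.degreeOf i := by
      rw [hR, degreeOf_mul_eq hP.ne_zero hR0]
    have h2 : (pderiv i P).degreeOf i < P.degreeOf i := by
      rw [degreeOf_lt_iff (Nat.pos_of_ne_zero (hvar i))]
      intro m hm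
      rw [mem_support_iff, coeff_pderiv] at hm
      have h3 : coeff (m + Finsupp.single i 1) P ≠ 0 := left_ne_zero_of_mul hm
      have h4 := monomial_le_degreeOf i (mem_support_iff.mpr h3)
      simp only [Finsupp.coe_add, Pi.add_apply, Finsupp.single_eq_same] at h4
      omega
    omega
  have hprod : ¬ P ∣ (∏ i, pderiv i P) * Q := by
    intro h
    rcases hPp.dvd_or_dvd h with h | h
    · obtain ⟨i, _, hi⟩ := (hPp.dvd_finsetProd_iff _).mp h
      exact hpd i hi
    · exact hQ h
  by_contra hcon
  push Not at hcon
  apply hprod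
  have hrad : (∏ i, pderiv i P) * Q ∈ (Ideal.span {P}).radical := by
    rw [← vanishingIdeal_zeroLocus_eq_radical (K := F), mem_vanishingIdeal_iff]
    intro x hx
    have hxP : eval x P = 0 := by
      have := (mem_zeroLocus_iff.mp hx) P (Ideal.mem_span_singleton_self P)
      rwa [← coe_aeval_eq_eval] 
    have hev : ∀ G : MvPolynomial (Fin n) F, aeval x G = eval x G := fun G => by
      rw [aeval_eq_eval]
    rw [hev]
    by_contra hne
    obtain ⟨i, hi⟩ := hcon x (by rw [map_mul, hxP, zero_mul])
    rw [map_mul, map_prod] at hne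
    have h1 : eval x Q ≠ 0 := right_ne_zero_of_mul hne
    have h2 : eval x (pderiv i P) ≠ 0 :=
      Finset.prod_ne_zero_iff.mp (left_ne_zero_of_mul hne) i (Finset.mem_univ i)
    rw [pderiv_mul, map_add, map_mul, map_mul, hxP, zero_mul, add_zero] at hi
    exact (mul_ne_zero h2 h1) hi
  have hprime : (Ideal.span {P}).IsPrime := (Ideal.span_singleton_prime hP.ne_zero).mpr hPp
  rw [hprime.radical, Ideal.mem_span_singleton] at hrad
  exact hrad

end

/-- The case of the coordinate lines: `Φ` has degree at most `4` in each variable, and over the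
algebraic closure some irreducible factor of `Φ` of multiplicity one involves all the variables. -/
theorem coordinate_case (k₀ : Type) [Field k₀] [NumberField k₀] (n : ℕ) (hn : 0 < n)
    (Φ : MvPolynomial (Fin n) k₀) (hdeg : ∀ i, Φ.degreeOf i ≤ 4)
    (P : MvPolynomial (Fin n) (AlgebraicClosure k₀)) (hP : Irreducible P)
    (hdvd : P ∣ map (algebraMap k₀ (AlgebraicClosure k₀)) Φ)
    (hsq : ¬ P ^ 2 ∣ map (algebraMap k₀ (AlgebraicClosure k₀)) Φ)
    (hvar : ∀ i, P.degreeOf i ≠ 0)
    {X : Scheme.{0}} (sX : X ⟶ Spec (.of k₀))
    (f : (doubleCover Φ).PartialMap X) (hf : IsDominant f.hom)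
    (hfk : f.hom ≫ sX = f.domain.ι ≫ doubleCoverStr Φ) :
    PotentiallyDense sX := by
  obtain ⟨r, hr, hr2⟩ := exists_good_point _ P hP hdvd hsq hvar
  refine main_double k₀ n n hn Φ (fun i => coordLines i) ?_ r ?_ ?_
    (coordLines_generate r) sX f hf hfk
  · intro i
    refine ⟨(coordLines i).restrict (map (algebraMap k₀ (AlgebraicClosure k₀)) Φ), 1,
      by ring, (coordLines_natDegree i _).trans ?_⟩
    refine le_trans ?_ (hdeg i)
    rw [degreeOf_eq_sup, degreeOf_eq_sup]
    exact Finset.sup_mono (support_map_subset _ _)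
  · rw [aeval_def, ← MvPolynomial.eval_map]; exact hr
  · intro i
    rw [CurveFamily.TransversalAt, coordLines_velocity]
    exact hr2 i

end Pool.Agent.W572
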