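import Pool.Agent.W572.CoverC
import Pool.Agent.W572.Coord

set_option autoImplicit false

namespace Pool.Agent.W572

open MvPolynomial AlgebraicGeometry CategoryTheory

/-- The case of the coordinate lines: `Φ` has degree at most `3` in each variable, and over the
algebraic closure some irreducible factor of `Φ` of multiplicity one involves all the variables. -/
theorem coordinate_caseC (k₀ : Type) [Field k₀] [NumberField k₀] (n : ℕ) (hn : 0 < n)
    (Φ : MvPolynomial (Fin n) k₀) (hdeg : ∀ i, Φ.degreeOf i ≤ 3)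
    (P : MvPolynomial (Fin n) (AlgebraicClosure k₀)) (hP : Irreducible P)
    (hdvd : P ∣ map (algebraMap k₀ (AlgebraicClosure k₀)) Φ)
    (hsq : ¬ P ^ 2 ∣ map (algebraMap k₀ (AlgebraicClosure k₀)) Φ)
    (hvar : ∀ i, P.degreeOf i ≠ 0)
    {X : Scheme.{0}} (sX : X ⟶ Spec (.of k₀))
    (f : (tripleCover Φ).PartialMap X) (hf : IsDominant f.hom)
    (hfk : f.hom ≫ sX = f.domain.ι ≫ tripleCoverStr Φ) :
    PotentiallyDense sX := by
  obtain ⟨r, hr, hr2⟩ := exists_good_point _ P hP hdvd hsq hvar
  refine main_triple k₀ n n hn Φ (fun i => coordLines i) ?_ r ?_ ?_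
    (coordLines_generate r) sX f hf hfk
  · intro i
    refine ⟨(coordLines i).restrict (map (algebraMap k₀ (AlgebraicClosure k₀)) Φ), 1,
      by ring, (coordLines_natDegree i _).trans ?_⟩
    refine le_trans ?_ (hdeg i)
    rw [degreeOf_eq_sup, degreeOf_eq_sup]
    exact Finset.sup_mono (support_map_subset _ _)
  · rw [aeval_def, ← MvPolynomial.eval_map]; exact hr
  · intro i
    rw [CurveFamily.TransversalAt, coordLines_velocity]
    exact hr2 i

end Pool.Agent.W572
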