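import Pool.Agent.W572.Orbit
import Pool.Agent.W572.Coeffs

set_option autoImplicit false

namespace Pool.Agent.W572

open MvPolynomial Filter Topology

variable {F : Type*} [NormedField F] [IsUltrametricDist F]

omit [IsUltrametricDist F] in
lemma eval_four {p : Polynomial F} (h : p.natDegree ≤ 4) (t : F) :
    p.eval t = p.coeff 0 + p.coeff 1 * t + p.coeff 2 * t ^ 2 + p.coeff 3 * t ^ 3 +
      p.coeff 4 * t ^ 4 := by
  rw [Polynomial.eval_eq_sum_range' (n := 5) (by omega)]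
  simp [Finset.sum_range_succ]

/-- Polynomial curves stay near their base point. -/
lemma curve_near {p : Polynomial F} {t : F} {B η δ : ℝ} {x0 : F} (hx0 : p.coeff 0 = x0)
    (hB : ∀ j, ‖p.coeff j‖ ≤ B) (hB0 : 0 ≤ B) (ht : ‖t‖ ≤ η) (hη : η ≤ 1) (h : B * η < δ) :
    ‖p.eval t - x0‖ < δ := by
  have h1 : p.eval t - x0 = ∑ j ∈ Finset.range p.natDegree, p.coeff (j + 1) * t ^ (j + 1) := by
    rw [Polynomial.eval_eq_sum_range, Finset.sum_range_succ', hx0]
    simp
  rw [h1]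
  have hη0 : 0 ≤ η := (norm_nonneg _).trans ht
  refine lt_of_le_of_lt (IsUltrametricDist.norm_sum_le_of_forall_le_of_nonneg
    (C := B * η) (by positivity) (fun j _ => ?_)) h
  rw [norm_mul, norm_pow]
  refine mul_le_mul (hB _) ?_ (by positivity) hB0
  calc ‖t‖ ^ (j + 1) ≤ ‖t‖ ^ 1 :=
        pow_le_pow_of_le_one (norm_nonneg _) (ht.trans hη) (by omega)
    _ ≤ η := by simpa using ht

omit [IsUltrametricDist F] in
/-- A finite family of polynomials is bounded near a point. -/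
lemma eventually_bounded {κ : Type*} [Finite κ] {σ : Type*} (P : κ → MvPolynomial σ F)
    (r : σ → F) : ∃ B : ℝ, 0 < B ∧ ∀ᶠ x in 𝓝 r, ∀ k, ‖eval x (P k)‖ ≤ B := by
  obtain ⟨B, hB⟩ := (Set.finite_range (fun k => ‖eval r (P k)‖)).bddAbove
  refine ⟨max B 0 + 1, by positivity, ?_⟩
  rw [eventually_all]
  intro k
  have hc : Continuous (fun x : σ → F => ‖eval x (P k)‖) :=
    (MvPolynomial.continuous_eval (P k)).norm
  have h1 : ‖eval r (P k)‖ < max B 0 + 1 := by
    have : ‖eval r (P k)‖ ≤ B := hB ⟨k, rfl⟩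
    have := le_max_left B 0
    linarith
  exact (hc.tendsto r).eventually (ge_mem_nhds h1 |>.mono (fun a ha => ha))

theorem core [CharZero F] (h3 : ‖(3 : F)‖ < 1) {σ : Type*} [Fintype σ] [DecidableEq σ]
    {ι : Type*} [Finite ι] [Nonempty ι] (Φ : MvPolynomial σ F)
    (lam : ι → σ → Polynomial (MvPolynomial σ F)) (h0 : ∀ i l, (lam i l).coeff 0 = X l)
    (q s : ι → Polynomial (MvPolynomial σ F)) (hqs : ∀ i, (aeval (lam i)) Φ = q i * s i ^ 2)
    (h4 : ∀ i, (q i).natDegree ≤ 4) (r : σ → F) (hr : eval r Φ = 0)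
    (hD : ∀ i, eval r (dir (lam i) Φ) ≠ 0)
    (E : σ → Derivation F (MvPolynomial σ F) (MvPolynomial σ F))
    (hE : ∀ l, E l ∈ LieSubalgebra.lieSpan F (Derivation F (MvPolynomial σ F)
        (MvPolynomial σ F)) (Set.range (fun i => dir (lam i))))
    (hdet : (Matrix.of fun l m => eval r (E l (X m))).det ≠ 0) :
    ∃ y : σ → F, ∀ S : Subfield F, (∀ i l, lam i l ∈ PS (σ := σ) S) →
      (∀ i, q i ∈ PS (σ := σ) S) → (∀ i, s i ∈ PS (σ := σ) S) → (∀ l, r l ∈ S) → (∃ w ∈ S, w ^ 2 = eval y Φ) →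
      ∀ H : MvPolynomial σ F, (∀ x : σ → F, (∀ l, x l ∈ S) →
        (∃ w ∈ S, w ≠ 0 ∧ w ^ 2 = eval x Φ) → eval x H = 0) → H = 0 := by
  classical
  have h30 : (3 : F) ≠ 0 := by exact_mod_cast (show (3 : ℕ) ≠ 0 by norm_num)
  have h3p : 0 < ‖(3 : F)‖ := norm_pos_iff.mpr h30
  -- the Taylor coefficients along the curves
  set f : ι → ℕ → MvPolynomial σ F := fun i j => (q i).coeff j with hf
  set g : ι → MvPolynomial σ F := fun i => (s i).coeff 0 with hg
  have hfg : ∀ i, Φ = f i 0 * g i ^ 2 := by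
    intro i
    have h := coeff_zero_curve _ (h0 i) Φ
    rw [hqs i, Polynomial.mul_coeff_zero, pow_two, Polynomial.mul_coeff_zero] at h
    rw [← h, hf, hg]; ring
  have hgr : ∀ i, eval r (g i) ≠ 0 := by
    intro i h
    apply hD i
    rw [← coeff_one_curve _ (h0 i) Φ, hqs i, Polynomial.mul_coeff_one, pow_two,
      Polynomial.mul_coeff_zero, Polynomial.mul_coeff_one]
    change eval r ((q i).coeff 0 * (g i * (s i).coeff 1 + (s i).coeff 1 * g i) +
      (q i).coeff 1 * (g i * g i)) = 0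
    simp [h]
  have hfr : ∀ i, eval r (f i 1) ≠ 0 := by
    intro i h
    apply hD i
    have h1 : eval r (f i 0) = 0 := by
      have h2 := hr
      rw [hfg i, map_mul, map_pow] at h2
      rcases mul_eq_zero.mp h2 with h3 | h3
      · exact h3
      · exact absurd (pow_eq_zero_iff (two_ne_zero) |>.mp h3) (hgr i)
    rw [← coeff_one_curve _ (h0 i) Φ, hqs i, Polynomial.mul_coeff_one, pow_two,
      Polynomial.mul_coeff_zero, Polynomial.mul_coeff_one]
    change eval r (f i 0 * (g i * (s i).coeff 1 + (s i).coeff 1 * g i) +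
      f i 1 * (g i * g i)) = 0
    simp [h, h1]
  obtain ⟨i₁, hi₁⟩ := Finite.exists_min (fun i => ‖eval r (f i 1)‖)
  set c := ‖eval r (f i₁ 1)‖ with hc
  have hcpos : 0 < c := norm_pos_iff.mpr (hfr i₁)
  obtain ⟨i₂, hi₂⟩ := Finite.exists_min (fun i => ‖eval r (g i)‖)
  set e := ‖eval r (g i₂)‖ with he
  have hepos : 0 < e := norm_pos_iff.mpr (hgr i₂)
  have hele : ∀ i, e ≤ ‖eval r (g i)‖ := hi₂
  have hcle : ∀ i, c ≤ ‖eval r (f i 1)‖ := hi₁
  -- bounds near `r`
  obtain ⟨B, hBpos, hB⟩ := eventually_bounded (κ := ι × Fin 5) (fun k => f k.1 k.2) r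
  have hN : ∃ N : ℕ, (∀ i l, (lam i l).natDegree ≤ N) ∧ ∀ i, (s i).natDegree ≤ N := by
    obtain ⟨N, hN⟩ := (Set.finite_range (fun k : ι × σ => (lam k.1 k.2).natDegree)).bddAbove
    obtain ⟨N', hN'⟩ := (Set.finite_range (fun k : ι => (s k).natDegree)).bddAbove
    exact ⟨max N N', fun i l => (hN ⟨(i, l), rfl⟩).trans (le_max_left _ _),
      fun i => (hN' ⟨i, rfl⟩).trans (le_max_right _ _)⟩
  obtain ⟨N, hN, hNs⟩ := hN
  obtain ⟨B', hB'pos, hB'⟩ := eventually_bounded (κ := ι × σ × Fin (N + 1))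
    (fun k => (lam k.1 k.2.1).coeff k.2.2) r
  have hB'' : ∀ᶠ x in 𝓝 r, ∀ i l j, ‖eval x ((lam i l).coeff j)‖ ≤ B' := by
    filter_upwards [hB'] with x hx i l j
    by_cases hj : j < N + 1
    · exact hx (i, l, ⟨j, hj⟩)
    · rw [Polynomial.coeff_eq_zero_of_natDegree_lt (by have := hN i l; omega), map_zero,
        norm_zero]
      exact hB'pos.le
  obtain ⟨B₃, hB₃pos, hB₃⟩ := eventually_bounded (κ := ι × Fin (N + 1))
    (fun k => (s k.1).coeff k.2) r
  have hB₃' : ∀ᶠ x in 𝓝 r, ∀ i j, ‖eval x ((s i).coeff j)‖ ≤ B₃ := by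
    filter_upwards [hB₃] with x hx i j
    by_cases hj : j < N + 1
    · exact hx (i, ⟨j, hj⟩)
    · rw [Polynomial.coeff_eq_zero_of_natDegree_lt (by have := hNs i; omega), map_zero,
        norm_zero]
      exact hB₃pos.le
  have hgnear : ∀ᶠ x in 𝓝 r, ∀ i, ‖eval x (g i)‖ = ‖eval r (g i)‖ := by
    rw [eventually_all]
    intro i
    have hcont : Continuous (fun x : σ → F => eval x (g i)) := MvPolynomial.continuous_eval _
    have hpos : 0 < ‖eval r (g i)‖ := hepos.trans_le (hele i)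
    have := Metric.tendsto_nhds.mp (hcont.tendsto r) _ hpos
    filter_upwards [this] with x hx
    exact nlt_eq (by rwa [dist_eq_norm] at hx)
  have hf1near : ∀ᶠ x in 𝓝 r, ∀ i, ‖eval x (f i 1)‖ = ‖eval r (f i 1)‖ := by
    rw [eventually_all]
    intro i
    have hcont : Continuous (fun x : σ → F => eval x (f i 1)) := MvPolynomial.continuous_eval _
    have hpos : 0 < ‖eval r (f i 1)‖ := hcpos.trans_le (hcle i)
    have := Metric.tendsto_nhds.mp (hcont.tendsto r) _ hpos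
    filter_upwards [this] with x hx
    exact nlt_eq (by rwa [dist_eq_norm] at hx)
  have hdetnear : ∀ᶠ x in 𝓝 r, (Matrix.of fun l m => eval x (E l (X m))).det ≠ 0 := by
    have hcont : Continuous (fun x : σ → F => (Matrix.of fun l m => eval x (E l (X m))).det) := by
      refine Continuous.matrix_det ?_
      refine continuous_matrix (fun l m => ?_)
      exact MvPolynomial.continuous_eval _
    exact hcont.continuousAt.eventually_ne hdet
  obtain ⟨δ, hδpos, hδ⟩ := Metric.eventually_nhds_iff_ball.mp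
    (hB.and (hB''.and (hf1near.and (hdetnear.and (hB₃'.and hgnear)))))
  -- the scaling constant `γ = 3 ^ M`
  have htend : Tendsto (fun M : ℕ => ‖(3 : F)‖ ^ M) atTop (𝓝 0) :=
    tendsto_pow_atTop_nhds_zero_of_lt_one (norm_nonneg _) h3
  have hsmall : ∀ (k : ℕ), k ≠ 0 → ∀ K : ℝ, 0 < K →
      ∀ᶠ M : ℕ in atTop, B * (‖(3 : F)‖ ^ M) ^ k ≤ K := by
    intro k hk K hK
    have h1 : Tendsto (fun M : ℕ => B * (‖(3 : F)‖ ^ M) ^ k) atTop (𝓝 (B * 0 ^ k)) :=
      (htend.pow k).const_mul B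
    rw [zero_pow hk, mul_zero] at h1
    exact h1.eventually (ge_mem_nhds hK |>.mono (fun a ha => ha))
  obtain ⟨M, hM2, hM4, hM6⟩ := ((hsmall 2 (by norm_num) (c ^ 2) (by positivity)).and
    ((hsmall 4 (by norm_num) (c ^ 3) (by positivity)).and
      (hsmall 6 (by norm_num) (c ^ 4) (by positivity)))).exists
  set γ : F := 3 ^ M with hγ
  have hγn : ‖γ‖ = ‖(3 : F)‖ ^ M := by rw [hγ, norm_pow]
  have hγ0 : γ ≠ 0 := pow_ne_zero _ h30
  have hγpos : 0 < ‖γ‖ := norm_pos_iff.mpr hγ0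
  rw [← hγn] at hM2 hM4 hM6
  -- the step size bound `η` and the value bound `ε`
  obtain ⟨η, hηpos, hη1, hηδ, hηe⟩ : ∃ η : ℝ, 0 < η ∧ η ≤ 1 ∧ B' * η < δ ∧ B₃ * η < e := by
    refine ⟨min 1 (min (δ / (2 * B')) (e / (2 * B₃))), by positivity, min_le_left _ _, ?_, ?_⟩
    · calc B' * min 1 (min (δ / (2 * B')) (e / (2 * B₃))) ≤ B' * (δ / (2 * B')) :=
            mul_le_mul_of_nonneg_left ((min_le_right _ _).trans (min_le_left _ _)) hB'pos.le
        _ = δ / 2 := by field_simp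
        _ < δ := by linarith
    · calc B₃ * min 1 (min (δ / (2 * B')) (e / (2 * B₃))) ≤ B₃ * (e / (2 * B₃)) :=
            mul_le_mul_of_nonneg_left ((min_le_right _ _).trans (min_le_right _ _)) hB₃pos.le
        _ = e / 2 := by field_simp
        _ < e := by linarith
  obtain ⟨ε, hεpos, hε1, hε2⟩ : ∃ ε : ℝ, 0 < ε ∧ ε ≤ ‖(3 : F)‖ * ‖γ‖ ^ 2 * e ^ 2 ∧
      ε ≤ η * c * e ^ 2 :=
    ⟨min (‖(3 : F)‖ * ‖γ‖ ^ 2 * e ^ 2) (η * c * e ^ 2), by positivity, min_le_left _ _,
      min_le_right _ _⟩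
  -- the starting point
  obtain ⟨i₀⟩ := (inferInstance : Nonempty ι)
  set p : Polynomial F := ((aeval (lam i₀)) Φ).map (eval r) with hp
  have hp0 : p.coeff 0 = 0 := by
    rw [hp, Polynomial.coeff_map, coeff_zero_curve _ (h0 i₀), hr]
  have hp1 : p.coeff 1 ≠ 0 := by
    rw [hp, Polynomial.coeff_map, coeff_one_curve _ (h0 i₀)]
    exact hD i₀
  have hpne : p ≠ 0 := fun h => hp1 (by rw [h, Polynomial.coeff_zero])
  have htend3 : Tendsto (fun m : ℕ => (3 : F) ^ m) atTop (𝓝 0) := by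
    rw [tendsto_zero_iff_norm_tendsto_zero]
    simpa using htend
  obtain ⟨m, hm1, hm2, hm3⟩ : ∃ m : ℕ, p.eval ((3 : F) ^ m) ≠ 0 ∧ ‖p.eval ((3 : F) ^ m)‖ < ε ∧
      ‖(3 : F) ^ m‖ ≤ η := by
    have e1 : ∀ᶠ m : ℕ in atTop, p.eval ((3 : F) ^ m) ≠ 0 := by
      rw [← Nat.cofinite_eq_atTop]
      have hfin : {m : ℕ | p.eval ((3 : F) ^ m) = 0}.Finite := by
        have hinj : Function.Injective (fun m : ℕ => (3 : F) ^ m) := by
          intro a b hab
          have : ((3 ^ a : ℕ) : F) = ((3 ^ b : ℕ) : F) := by push_cast; exact hab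
          exact Nat.pow_right_injective (le_refl 2 |>.trans (by norm_num)) (Nat.cast_injective this)
        have : {m : ℕ | p.eval ((3 : F) ^ m) = 0} = (fun m : ℕ => (3 : F) ^ m) ⁻¹'
            {t | p.IsRoot t} := rfl
        rw [this]
        exact (Polynomial.finite_setOfPred_isRoot hpne).preimage hinj.injOn
      exact hfin.eventually_cofinite_notMem
    have e2 : ∀ᶠ m : ℕ in atTop, ‖p.eval ((3 : F) ^ m)‖ < ε := by
      have h1 : Tendsto (fun m : ℕ => ‖p.eval ((3 : F) ^ m)‖) atTop (𝓝 ‖p.eval 0‖) :=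
        ((p.continuous.tendsto 0).comp htend3).norm
      rw [← Polynomial.coeff_zero_eq_eval_zero, hp0, norm_zero] at h1
      exact h1.eventually (gt_mem_nhds hεpos |>.mono (fun a ha => ha))
    have e3 : ∀ᶠ m : ℕ in atTop, ‖(3 : F) ^ m‖ ≤ η := by
      have h1 : Tendsto (fun m : ℕ => ‖(3 : F) ^ m‖) atTop (𝓝 0) := by simpa using htend
      exact h1.eventually (ge_mem_nhds hηpos |>.mono (fun a ha => ha))
    obtain ⟨m, h1, h2, h3⟩ := (e1.and (e2.and e3)).exists
    exact ⟨m, h1, h2, h3⟩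
  refine ⟨fun l => ((lam i₀ l).map (eval r)).eval ((3 : F) ^ m), ?_⟩
  intro S hlamS hqS hsS hrS hwS
  have h3S : (3 : F) ∈ S := ofNat_mem S 3
  set y : σ → F := fun l => ((lam i₀ l).map (eval r)).eval ((3 : F) ^ m) with hy
  have hyΦ : eval y Φ = p.eval ((3 : F) ^ m) := by
    rw [hp, eval_curve]
  -- the set of good points
  set T : Set (σ → F) := {x | (∀ l, x l ∈ S) ∧ (∀ l, ‖x l - r l‖ < δ) ∧
    ∃ w ∈ S, w ≠ 0 ∧ w ^ 2 = eval x Φ ∧ ‖w‖ ^ 2 < ε} with hT
  have hball : ∀ x : σ → F, (∀ l, ‖x l - r l‖ < δ) → x ∈ Metric.ball r δ := by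
    intro x hx
    rw [Metric.mem_ball, dist_pi_lt_iff hδpos]
    intro l
    rw [dist_eq_norm]; exact hx l
  have hrball : r ∈ Metric.ball r δ := Metric.mem_ball_self hδpos
  have hyT : y ∈ T := by
    obtain ⟨w, hw, hw2⟩ := hwS
    refine ⟨fun l => PS_eval (hlamS i₀ l) hrS (S.pow_mem h3S m), fun l => ?_, w, hw, ?_, hw2, ?_⟩
    · refine curve_near (η := η) (B := B') ?_ ?_ hB'pos.le hm3 hη1 hηδ
      · rw [Polynomial.coeff_map, h0, eval_X]
      · intro j
        rw [Polynomial.coeff_map]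
        exact (hδ r hrball).2.1 i₀ l j
    · rintro rfl
      apply hm1
      rw [← hyΦ, ← hw2]; ring
    · rw [← norm_pow, hw2, hyΦ]; exact hm2
  intro H hH
  refine dense_of_moves T ⟨y, hyT⟩ lam h0 ?_ E hE ?_ H ?_
  · -- infinitely many moves
    rintro x ⟨hxS, hxr, w, hwS', hw0, hw2, hwε⟩ i
    obtain ⟨b1, b2, b3, -, b5, b6⟩ := hδ x (hball x hxr)
    have hfS : ∀ j, eval x (f i j) ∈ S := fun j => RS_eval (PS_coeff (hqS i) j) hxS
    have hgS : eval x (g i) ∈ S := RS_eval (PS_coeff (hsS i) 0) hxS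
    have hf1x : ‖eval x (f i 1)‖ = ‖eval r (f i 1)‖ := b3 i
    have hcx : c ≤ ‖eval x (f i 1)‖ := by rw [hf1x]; exact hcle i
    have hex : e ≤ ‖eval x (g i)‖ := by rw [b6 i]; exact hele i
    have hf1x0 : eval x (f i 1) ≠ 0 := by
      rw [← norm_pos_iff]; exact hcpos.trans_le hcx
    have hgx0 : eval x (g i) ≠ 0 := by
      rw [← norm_pos_iff]; exact hepos.trans_le hex
    have hgxpos : 0 < ‖eval x (g i)‖ := norm_pos_iff.mpr hgx0
    set u := w / eval x (g i) with hu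
    have huS : u ∈ S := S.div_mem hwS' hgS
    have hu0 : u ≠ 0 := div_ne_zero hw0 hgx0
    have hu2 : u ^ 2 = eval x (f i 0) := by
      rw [hu, div_pow, hw2, hfg i, map_mul, map_pow]
      field_simp
    have hun : ‖u‖ ^ 2 = ‖w‖ ^ 2 / ‖eval x (g i)‖ ^ 2 := by
      rw [hu, norm_div, div_pow]
    have hule : ‖u‖ ^ 2 * e ^ 2 ≤ ‖w‖ ^ 2 := by
      rw [hun, div_mul_eq_mul_div, div_le_iff₀ (by positivity)]
      exact mul_le_mul_of_nonneg_left (pow_le_pow_left₀ hepos.le hex 2) (by positivity)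
    have hu1 : ‖u‖ ^ 2 < ‖(3 : F)‖ * ‖γ‖ ^ 2 := by
      have h1 : ‖u‖ ^ 2 * e ^ 2 < ‖(3 : F)‖ * ‖γ‖ ^ 2 * e ^ 2 :=
        lt_of_le_of_lt hule (hwε.trans_le hε1)
      exact lt_of_mul_lt_mul_right h1 (by positivity)
    have hu3 : ‖u‖ ^ 2 ≤ η * c := by
      have h1 : ‖u‖ ^ 2 * e ^ 2 ≤ η * c * e ^ 2 := hule.trans (hwε.le.trans hε2)
      exact le_of_mul_le_mul_right h1 (by positivity)
    have horb := orbit S h3 h30 (f0 := eval x (f i 0)) (f1 := eval x (f i 1))
      (f2 := eval x (f i 2)) (f3 := eval x (f i 3)) (f4 := eval x (f i 4)) (w := u) (γ := γ)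
      (hfS 1) (hfS 2) (hfS 3) (hfS 4) huS (S.pow_mem h3S M) hu2 hu0 hf1x0 hγ0
      ((mul_le_mul_of_nonneg_right (b1 (i, 2)) (by positivity)).trans
        (hM2.trans (pow_le_pow_left₀ hcpos.le hcx 2)))
      ((mul_le_mul_of_nonneg_right (b1 (i, 3)) (by positivity)).trans
        (hM4.trans (pow_le_pow_left₀ hcpos.le hcx 3)))
      ((mul_le_mul_of_nonneg_right (b1 (i, 4)) (by positivity)).trans
        (hM6.trans (pow_le_pow_left₀ hcpos.le hcx 4)))
      hu1
    refine horb.mono ?_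
    rintro t ⟨htS, htn, u', hu'S, hu'0, hu'e, hu'n⟩
    have htη : ‖t‖ ≤ η := by
      refine htn.trans ?_
      rw [div_le_iff₀ (hcpos.trans_le hcx)]
      calc ‖u‖ ^ 2 ≤ η * c := hu3
        _ ≤ η * ‖eval x (f i 1)‖ := mul_le_mul_of_nonneg_left hcx hηpos.le
    set v := ((s i).map (eval x)).eval t with hv
    have hvS : v ∈ S := PS_eval (hsS i) hxS htS
    have hvn : ‖v‖ = ‖eval x (g i)‖ := by
      apply nlt_eq
      refine curve_near (η := η) (B := B₃) (p := (s i).map (eval x)) (by rw [Polynomial.coeff_map])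
        ?_ hB₃pos.le htη hη1 (hηe.trans_le hex)
      intro j
      rw [Polynomial.coeff_map]
      exact b5 i j
    have hv0 : v ≠ 0 := by rw [← norm_pos_iff, hvn]; exact hgxpos
    refine ⟨fun l => PS_eval (hlamS i l) hxS htS, fun l => ?_, v * u', S.mul_mem hvS hu'S,
      mul_ne_zero hv0 hu'0, ?_, ?_⟩
    · have h1 : ‖((lam i l).map (eval x)).eval t - x l‖ < δ := by
        refine curve_near (η := η) (B := B') ?_ ?_ hB'pos.le htη hη1 hηδ
        · rw [Polynomial.coeff_map, h0, eval_X]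
        · intro j
          rw [Polynomial.coeff_map]
          exact b2 i l j
      have h2 : ((lam i l).map (eval x)).eval t - r l =
          (((lam i l).map (eval x)).eval t - x l) + (x l - r l) := by ring
      rw [h2]
      exact lt_of_le_of_lt (IsUltrametricDist.norm_add_le_max _ _) (max_lt h1 (hxr l))
    · rw [mul_pow, hu'e, ← eval_curve, hqs i, Polynomial.map_mul, Polynomial.map_pow,
        Polynomial.eval_mul, Polynomial.eval_pow,
        eval_four ((Polynomial.natDegree_map_le (p := q i) (f := eval x)).trans (h4 i))]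
      simp only [Polynomial.coeff_map]
      rw [mul_comm]
    · have h1 : ‖v * u'‖ ≤ ‖w‖ := by
        rw [norm_mul, hvn]
        calc ‖eval x (g i)‖ * ‖u'‖ ≤ ‖eval x (g i)‖ * ‖u‖ :=
              mul_le_mul_of_nonneg_left hu'n (norm_nonneg _)
          _ = ‖w‖ := by rw [hu, norm_div]; field_simp
      exact lt_of_le_of_lt (pow_le_pow_left₀ (norm_nonneg _) h1 2) hwε
  · rintro x ⟨-, hxr, -⟩
    exact (hδ x (hball x hxr)).2.2.2.1
  · rintro x ⟨hxS, -, w, hwS', hw0, hw2, -⟩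
    exact hH x hxS ⟨w, hwS', hw0, hw2⟩

end Pool.Agent.W572
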