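import Pool.Agent.W572.Defs

set_option autoImplicit false

namespace Pool.Agent.W572

open AlgebraicGeometry CategoryTheory

/-- Transfer of potential density along a dominant rational map from an affine scheme. -/
theorem potentiallyDense_of_partialMap {k₀ : Type} [Field k₀] (A : Type) [CommRing A]
    [Algebra k₀ A] (L : Type) [Field L] [Algebra k₀ L] [FiniteDimensional k₀ L]
    (hA : ∀ g : A, g ≠ 0 → ∃ φ : A →ₐ[k₀] L, φ g ≠ 0)
    {X : Scheme.{0}} (sX : X ⟶ Spec (.of k₀))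
    (f : (Spec (.of A)).PartialMap X) [IsDominant f.hom]
    (hf : f.hom ≫ sX = f.domain.ι ≫ Spec.map (CommRingCat.ofHom (algebraMap k₀ A))) :
    PotentiallyDense sX := by
  refine ⟨L, inferInstance, inferInstance, inferInstance, ?_⟩
  rw [dense_iff_inter_open]
  intro W hW hWne
  -- the preimage of `W` in the domain of `f`
  have hW1 : IsOpen (f.hom ⁻¹' W) := hW.preimage f.hom.continuous
  have hW2 : (f.hom ⁻¹' W).Nonempty := by
    obtain ⟨_, ⟨u, rfl⟩, hu⟩ := f.hom.denseRange.exists_mem_open hW hWne |>.elim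
      (fun u hu => (⟨f.hom u, ⟨u, rfl⟩, hu⟩ : ∃ a, a ∈ Set.range f.hom ∧ a ∈ W))
    exact ⟨u, hu⟩
  let U' : Set (Spec (.of A)) := f.domain.ι '' (f.hom ⁻¹' W)
  have hU' : IsOpen U' := f.domain.ι.isOpenEmbedding.isOpenMap _ hW1
  obtain ⟨u, hu⟩ := hW2
  -- a basic open subset
  obtain ⟨_, ⟨g, rfl⟩, hg1, hg2⟩ := (PrimeSpectrum.isTopologicalBasis_basic_opens
    (R := A)).exists_subset_of_mem_open (show f.domain.ι u ∈ U' from ⟨u, hu, rfl⟩) hU'
  have hg0 : g ≠ 0 := by
    rintro rfl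
    exact hg1 (Ideal.zero_mem _)
  obtain ⟨φ, hφ⟩ := hA g hg0
  let p : Spec (.of L) ⟶ Spec (.of A) := Spec.map (CommRingCat.ofHom φ.toRingHom)
  have hp : ∀ q, p q ∈ U' := by
    intro q
    apply hg2
    change g ∉ (p q).asIdeal
    intro hcon
    have h1 : φ g ∈ q.asIdeal := hcon
    have h2 : q.asIdeal = ⊥ := by
      rcases Ideal.eq_bot_or_top q.asIdeal with h | h
      · exact h
      · exact absurd h q.isPrime.ne_top
    rw [h2] at h1
    exact hφ h1
  have hrange : Set.range p ⊆ Set.range f.domain.ι := by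
    rintro _ ⟨q, rfl⟩
    obtain ⟨v, -, hv⟩ := hp q
    exact ⟨v, hv⟩
  let p' := IsOpenImmersion.lift f.domain.ι p hrange
  have hp' : p' ≫ f.domain.ι = p := IsOpenImmersion.lift_fac _ _ _
  let q₀ : Spec (.of L) := (⊥ : PrimeSpectrum L)
  refine ⟨(p' ≫ f.hom) q₀, ?_, p' ≫ f.hom, ?_, ⟨q₀, rfl⟩⟩
  · obtain ⟨v, hv, hv2⟩ := hp q₀
    have h1 : f.domain.ι (p' q₀) = p q₀ := by
      rw [← hp']; rfl
    have h2 : p' q₀ = v := f.domain.ι.isOpenEmbedding.injective (h1.trans hv2.symm)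
    change f.hom (p' q₀) ∈ W
    rw [h2]
    exact hv
  · rw [Category.assoc, hf, ← Category.assoc, hp', ← Spec.map_comp, ← CommRingCat.ofHom_comp]
    congr 2
    exact φ.comp_algebraMap

end Pool.Agent.W572
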