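import Pool.Agent.W572.Points
import Pool.Agent.W572.Wrap

set_option autoImplicit false

namespace Pool.Agent.W572

open MvPolynomial AlgebraicGeometry CategoryTheory

/-- Enough points on the base give enough points on the double cover. -/
theorem points_of_cover {k₀ : Type} [Field k₀] [CharZero k₀] {n : ℕ}
    (Φ : MvPolynomial (Fin n) k₀)
    (L : IntermediateField k₀ (AlgebraicClosure k₀))
    (hL : ∀ G : MvPolynomial (Fin n) (AlgebraicClosure k₀),
        (∀ x : Fin n → AlgebraicClosure k₀, (∀ l, x l ∈ L) →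
          (∃ w ∈ L, w ≠ 0 ∧ w ^ 2 = aeval x Φ) → eval x G = 0) → G = 0)
    (g : AdjoinRoot (Polynomial.X ^ 2 - Polynomial.C Φ)) (hg : g ≠ 0) :
    ∃ φ : AdjoinRoot (Polynomial.X ^ 2 - Polynomial.C Φ) →ₐ[k₀] L, φ g ≠ 0 := by
  classical
  by_contra hcon
  push Not at hcon
  apply hg
  have hmon : (Polynomial.X ^ 2 - Polynomial.C Φ : Polynomial (MvPolynomial (Fin n) k₀)).Monic :=
    Polynomial.monic_X_pow_sub_C Φ (by norm_num)
  obtain ⟨G, rfl⟩ := AdjoinRoot.mk_surjective g
  -- reduce modulo the monic polynomial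
  set q := Polynomial.X ^ 2 - Polynomial.C Φ with hq
  have hred : AdjoinRoot.mk q G = AdjoinRoot.mk q (G %ₘ q) := by
    rw [AdjoinRoot.mk_eq_mk]
    exact ⟨G /ₘ q, by
      have := Polynomial.modByMonic_add_div G q
      linear_combination -this⟩
  set R := G %ₘ q with hR
  have hdeg : R.natDegree < 2 := by
    have h1 := Polynomial.natDegree_modByMonic_lt G hmon (by
      intro h
      have := congrArg Polynomial.natDegree h
      rw [hq, Polynomial.natDegree_X_pow_sub_C, Polynomial.natDegree_one] at this
      omega)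
    rwa [hq, Polynomial.natDegree_X_pow_sub_C] at h1
  have hRform : R = Polynomial.C (R.coeff 0) + Polynomial.C (R.coeff 1) * Polynomial.X := by
    conv_lhs => rw [R.as_sum_range' 2 hdeg]
    simp [Finset.sum_range_succ, ← Polynomial.C_mul_X_eq_monomial]
  -- evaluation at points
  have key : ∀ (x : Fin n → L) (w : L), w ^ 2 = aeval x Φ →
      aeval x (R.coeff 0) + aeval x (R.coeff 1) * w = 0 := by
    intro x w hw
    let φ : AdjoinRoot q →ₐ[k₀] L := AdjoinRoot.liftAlgHom q (aeval x) w (by
      rw [hq]; simp [hw])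
    have h1 := hcon φ
    rw [hred, hRform] at h1
    simpa [φ] using h1
  have hzero : ∀ x : Fin n → AlgebraicClosure k₀, (∀ l, x l ∈ L) →
      (∃ w ∈ L, w ≠ 0 ∧ w ^ 2 = aeval x Φ) →
      aeval x (R.coeff 0) = 0 ∧ aeval x (R.coeff 1) = 0 := by
    rintro x hx ⟨w, hwL, hw0, hw⟩
    set x' : Fin n → L := fun l => ⟨x l, hx l⟩ with hx'
    have hc : ∀ P : MvPolynomial (Fin n) k₀,
        ((aeval x' P : L) : AlgebraicClosure k₀) = aeval x P := by
      intro P
      have := MvPolynomial.map_aeval x' (algebraMap L (AlgebraicClosure k₀)) P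
      have h2 := MvPolynomial.aeval_algebraMap_apply (AlgebraicClosure k₀) x' P
      exact h2.symm
    set w' : L := ⟨w, hwL⟩ with hw'
    have hw'0 : w' ≠ 0 := by
      intro h; apply hw0; exact congrArg Subtype.val h
    have hww : w' ^ 2 = aeval x' Φ := by
      apply Subtype.ext
      rw [hc]
      exact hw
    have e1 := key x' w' hww
    have e2 := key x' (-w') (by rw [neg_sq]; exact hww)
    have e3 : aeval x' (R.coeff 1) * w' = 0 := by
      have h2 : (2 : L) ≠ 0 := two_ne_zero
      have : 2 * (aeval x' (R.coeff 1) * w') = 0 := by linear_combination e1 - e2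
      rcases mul_eq_zero.mp this with h | h
      · exact absurd h h2
      · exact h
    have e4 : aeval x' (R.coeff 1) = 0 := by
      rcases mul_eq_zero.mp e3 with h | h
      · exact h
      · exact absurd h hw'0
    have e5 : aeval x' (R.coeff 0) = 0 := by rw [e4, zero_mul, add_zero] at e1; exact e1
    rw [← hc, ← hc, e4, e5]
    exact ⟨rfl, rfl⟩
  have hinj : Function.Injective (map (σ := Fin n) (algebraMap k₀ (AlgebraicClosure k₀))) :=
    MvPolynomial.map_injective _ (FaithfulSMul.algebraMap_injective _ _)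
  have c0 : R.coeff 0 = 0 := by
    apply hinj
    rw [map_zero]
    apply hL
    intro x hx hw
    rw [MvPolynomial.eval_map, ← aeval_def]
    exact (hzero x hx hw).1
  have c1 : R.coeff 1 = 0 := by
    apply hinj
    rw [map_zero]
    apply hL
    intro x hx hw
    rw [MvPolynomial.eval_map, ← aeval_def]
    exact (hzero x hx hw).2
  rw [hred, hRform, c0, c1]
  simp

/-- The main theorem: potential density of varieties dominated by double covers of affine space
with generating families of curves of genus at most one. -/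
theorem main_double (k₀ : Type) [Field k₀] [NumberField k₀] (n m : ℕ) (hm : 0 < m)
    (Φ : MvPolynomial (Fin n) k₀) (c : Fin m → CurveFamily (AlgebraicClosure k₀) n)
    (hgenus : ∀ i, (c i).GenusAtMostOne (map (algebraMap k₀ (AlgebraicClosure k₀)) Φ))
    (r : Fin n → AlgebraicClosure k₀) (hr : aeval r Φ = 0)
    (htrans : ∀ i, (c i).TransversalAt (map (algebraMap k₀ (AlgebraicClosure k₀)) Φ) r)
    (hgen : BracketGenerating c r)
    {X : Scheme.{0}} (sX : X ⟶ Spec (.of k₀))
    (f : (doubleCover Φ).PartialMap X) (hf : IsDominant f.hom)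
    (hfk : f.hom ≫ sX = f.domain.ι ≫ doubleCoverStr Φ) :
    PotentiallyDense sX := by
  obtain ⟨L, hL, hd⟩ := dense_points k₀ hm Φ c hgenus r hr htrans hgen
  let f' : (Spec (.of (AdjoinRoot (Polynomial.X ^ 2 - Polynomial.C Φ)))).PartialMap X := f
  have hf' : IsDominant f'.hom := hf
  exact potentiallyDense_of_partialMap (AdjoinRoot (Polynomial.X ^ 2 - Polynomial.C Φ)) L
    (fun g hg => points_of_cover Φ L hd g hg) sX f' hfk

end Pool.Agent.W572
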