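import Pool.Agent.W572.PointsC
import Pool.Agent.W572.Wrap

set_option autoImplicit false

namespace Pool.Agent.W572

open MvPolynomial AlgebraicGeometry CategoryTheory

/-- Enough points on the base give enough points on the triple cover. -/
theorem points_of_coverC {k₀ : Type} [Field k₀] [CharZero k₀] {n : ℕ}
    (Φ : MvPolynomial (Fin n) k₀)
    (L : IntermediateField k₀ (AlgebraicClosure k₀))
    (hζ : ∃ ζ ∈ L, IsPrimitiveRoot ζ 3)
    (hL : ∀ G : MvPolynomial (Fin n) (AlgebraicClosure k₀),
        (∀ x : Fin n → AlgebraicClosure k₀, (∀ l, x l ∈ L) →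
          (∃ w ∈ L, w ≠ 0 ∧ w ^ 3 = aeval x Φ) → eval x G = 0) → G = 0)
    (g : AdjoinRoot (Polynomial.X ^ 3 - Polynomial.C Φ)) (hg : g ≠ 0) :
    ∃ φ : AdjoinRoot (Polynomial.X ^ 3 - Polynomial.C Φ) →ₐ[k₀] L, φ g ≠ 0 := by
  classical
  by_contra hcon
  push Not at hcon
  apply hg
  obtain ⟨ζ', hζL, hζ'⟩ := hζ
  set ζ : L := ⟨ζ', hζL⟩ with hζdef
  have hz3 : ζ ^ 3 = 1 := Subtype.ext hζ'.pow_eq_one
  have hz1 : ζ ≠ 1 := by
    intro h
    exact hζ'.ne_one (by norm_num) (congrArg Subtype.val h)
  have hz : 1 + ζ + ζ ^ 2 = 0 := by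
    have h1 : (ζ - 1) * (1 + ζ + ζ ^ 2) = 0 := by linear_combination hz3
    rcases mul_eq_zero.mp h1 with h | h
    · exact absurd (sub_eq_zero.mp h) hz1
    · exact h
  have hmon : (Polynomial.X ^ 3 - Polynomial.C Φ : Polynomial (MvPolynomial (Fin n) k₀)).Monic :=
    Polynomial.monic_X_pow_sub_C Φ (by norm_num)
  obtain ⟨G, rfl⟩ := AdjoinRoot.mk_surjective g
  -- reduce modulo the monic polynomial
  set q := Polynomial.X ^ 3 - Polynomial.C Φ with hq
  have hred : AdjoinRoot.mk q G = AdjoinRoot.mk q (G %ₘ q) := by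
    rw [AdjoinRoot.mk_eq_mk]
    exact ⟨G /ₘ q, by
      have := Polynomial.modByMonic_add_div G q
      linear_combination -this⟩
  set R := G %ₘ q with hR
  have hdeg : R.natDegree < 3 := by
    have h1 := Polynomial.natDegree_modByMonic_lt G hmon (by
      intro h
      have := congrArg Polynomial.natDegree h
      rw [hq, Polynomial.natDegree_X_pow_sub_C, Polynomial.natDegree_one] at this
      omega)
    rwa [hq, Polynomial.natDegree_X_pow_sub_C] at h1
  have hRform : R = Polynomial.C (R.coeff 0) + Polynomial.C (R.coeff 1) * Polynomial.X +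
      Polynomial.C (R.coeff 2) * Polynomial.X ^ 2 := by
    conv_lhs => rw [R.as_sum_range' 3 hdeg]
    simp [Finset.sum_range_succ, ← Polynomial.C_mul_X_pow_eq_monomial]
  -- evaluation at points
  have key : ∀ (x : Fin n → L) (w : L), w ^ 3 = aeval x Φ →
      aeval x (R.coeff 0) + aeval x (R.coeff 1) * w + aeval x (R.coeff 2) * w ^ 2 = 0 := by
    intro x w hw
    let φ : AdjoinRoot q →ₐ[k₀] L := AdjoinRoot.liftAlgHom q (aeval x) w (by
      rw [hq]; simp [hw])
    have h1 := hcon φ
    rw [hred, hRform] at h1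
    simpa [φ] using h1
  have hzero : ∀ x : Fin n → AlgebraicClosure k₀, (∀ l, x l ∈ L) →
      (∃ w ∈ L, w ≠ 0 ∧ w ^ 3 = aeval x Φ) →
      aeval x (R.coeff 0) = 0 ∧ aeval x (R.coeff 1) = 0 ∧ aeval x (R.coeff 2) = 0 := by
    rintro x hx ⟨w, hwL, hw0, hw⟩
    set x' : Fin n → L := fun l => ⟨x l, hx l⟩ with hx'
    have hc : ∀ P : MvPolynomial (Fin n) k₀,
        ((aeval x' P : L) : AlgebraicClosure k₀) = aeval x P := by
      intro P
      have h2 := MvPolynomial.aeval_algebraMap_apply (AlgebraicClosure k₀) x' P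
      exact h2.symm
    set w' : L := ⟨w, hwL⟩ with hw'
    have hw'0 : w' ≠ 0 := by
      intro h; apply hw0; exact congrArg Subtype.val h
    have hww : w' ^ 3 = aeval x' Φ := by
      apply Subtype.ext
      rw [hc]
      exact hw
    have e1 := key x' w' hww
    have e2 := key x' (ζ * w') (by rw [mul_pow, hz3, one_mul]; exact hww)
    have e3 := key x' (ζ ^ 2 * w') (by
      rw [mul_pow, ← pow_mul, mul_comm 2 3, pow_mul, hz3, one_pow, one_mul]; exact hww)
    set r0 := aeval x' (R.coeff 0)
    set r1 := aeval x' (R.coeff 1)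
    set r2 := aeval x' (R.coeff 2)
    have h3 : (3 : L) ≠ 0 := three_ne_zero
    have c0 : r0 = 0 := by
      have : 3 * r0 = 0 := by
        linear_combination e1 + e2 + e3 - (r1 * w' + r2 * w' ^ 2) * hz -
          r2 * w' ^ 2 * ζ * hz3
      rcases mul_eq_zero.mp this with h | h
      · exact absurd h h3
      · exact h
    have c1 : r1 = 0 := by
      have : 3 * (r1 * w') = 0 := by
        linear_combination e1 + ζ ^ 2 * e2 + ζ * e3 - r0 * hz - (r2 * w' ^ 2) * hz -
          (2 * r1 * w') * hz3 - (r2 * w' ^ 2) * (ζ + ζ ^ 2) * hz3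
      rcases mul_eq_zero.mp this with h | h
      · exact absurd h h3
      · rcases mul_eq_zero.mp h with h | h
        · exact h
        · exact absurd h hw'0
    have c2 : r2 = 0 := by
      rw [c0, c1] at e1
      have : r2 * w' ^ 2 = 0 := by linear_combination e1
      rcases mul_eq_zero.mp this with h | h
      · exact h
      · exact absurd (pow_eq_zero_iff (two_ne_zero) |>.mp h) hw'0
    rw [← hc, ← hc, ← hc]
    exact ⟨congrArg Subtype.val c0, congrArg Subtype.val c1, congrArg Subtype.val c2⟩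
  have hinj : Function.Injective (map (σ := Fin n) (algebraMap k₀ (AlgebraicClosure k₀))) :=
    MvPolynomial.map_injective _ (FaithfulSMul.algebraMap_injective _ _)
  have c0 : R.coeff 0 = 0 := by
    apply hinj
    rw [map_zero]
    apply hL
    intro x hx hw
    rw [MvPolynomial.eval_map, ← aeval_def]
    exact (hzero x hx hw).1
  have c1 : R.coeff 1 = 0 := by
    apply hinj
    rw [map_zero]
    apply hL
    intro x hx hw
    rw [MvPolynomial.eval_map, ← aeval_def]
    exact (hzero x hx hw).2.1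
  have c2 : R.coeff 2 = 0 := by
    apply hinj
    rw [map_zero]
    apply hL
    intro x hx hw
    rw [MvPolynomial.eval_map, ← aeval_def]
    exact (hzero x hx hw).2.2
  rw [hred, hRform, c0, c1, c2]
  simp

/-- The main theorem: potential density of varieties dominated by triple covers of affine space
with generating families of curves of genus at most one. -/
theorem main_triple (k₀ : Type) [Field k₀] [NumberField k₀] (n m : ℕ) (hm : 0 < m)
    (Φ : MvPolynomial (Fin n) k₀) (c : Fin m → CurveFamily (AlgebraicClosure k₀) n)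
    (hgenus : ∀ i, (c i).TripleGenusAtMostOne (map (algebraMap k₀ (AlgebraicClosure k₀)) Φ))
    (r : Fin n → AlgebraicClosure k₀) (hr : aeval r Φ = 0)
    (htrans : ∀ i, (c i).TransversalAt (map (algebraMap k₀ (AlgebraicClosure k₀)) Φ) r)
    (hgen : BracketGenerating c r)
    {X : Scheme.{0}} (sX : X ⟶ Spec (.of k₀))
    (f : (tripleCover Φ).PartialMap X) (hf : IsDominant f.hom)
    (hfk : f.hom ≫ sX = f.domain.ι ≫ tripleCoverStr Φ) :
    PotentiallyDense sX := by
  obtain ⟨L, hL, hζ, hd⟩ := dense_pointsC k₀ hm Φ c hgenus r hr htrans hgen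
  let f' : (Spec (.of (AdjoinRoot (Polynomial.X ^ 3 - Polynomial.C Φ)))).PartialMap X := f
  have hf' : IsDominant f'.hom := hf
  exact potentiallyDense_of_partialMap (AdjoinRoot (Polynomial.X ^ 3 - Polynomial.C Φ)) L
    (fun g hg => points_of_coverC Φ L hζ hd g hg) sX f' hfk

end Pool.Agent.W572
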