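import Mathlib

set_option autoImplicit false

/-!
# Potential density of rational points, and families of polynomial curves
-/

namespace Pool.Agent.W572

open MvPolynomial AlgebraicGeometry CategoryTheory

/-- A scheme `X` over a field `k₀` is *potentially dense* if there is a finite extension `k/k₀`
such that the (images of the) `k`-rational points are Zariski dense in `X`. -/
def PotentiallyDense {k₀ : Type} [Field k₀] {X : Scheme.{0}} (sX : X ⟶ Spec (.of k₀)) : Prop :=
  ∃ (k : Type) (_ : Field k) (_ : Algebra k₀ k), FiniteDimensional k₀ k ∧
    Dense {x : X | ∃ p : Spec (.of k) ⟶ X,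
      p ≫ sX = Spec.map (CommRingCat.ofHom (algebraMap k₀ k)) ∧ x ∈ Set.range p}

/-- The affine double cover `w² = Φ(y₁, …, yₙ)` of affine `n`-space over `k₀`. -/
noncomputable def doubleCover {k₀ : Type} [Field k₀] {n : ℕ} (Φ : MvPolynomial (Fin n) k₀) :
    Scheme.{0} :=
  Spec (.of (AdjoinRoot (Polynomial.X ^ 2 - Polynomial.C Φ)))

/-- The structure morphism of the affine double cover `w² = Φ(y₁, …, yₙ)` over `k₀`. -/
noncomputable def doubleCoverStr {k₀ : Type} [Field k₀] {n : ℕ} (Φ : MvPolynomial (Fin n) k₀) :
    doubleCover Φ ⟶ Spec (.of k₀) :=
  Spec.map (CommRingCat.ofHom (algebraMap k₀ (AdjoinRoot (Polynomial.X ^ 2 - Polynomial.C Φ))))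

/-- A family of polynomial curves in affine `n`-space over `F`: for every point `y` a polynomial
curve `t ↦ λ(y, t)` with `λ(y, 0) = y`, whose coefficients are polynomials in `y`. -/
structure CurveFamily (F : Type*) [Field F] (n : ℕ) where
  /-- the coordinates of `λ(y, t)`, polynomials in `t` over the polynomial ring in `y` -/
  curve : Fin n → Polynomial (MvPolynomial (Fin n) F)
  /-- the curve starts at the base point -/
  base : ∀ l, (curve l).coeff 0 = X l

namespace CurveFamily

variable {F : Type*} [Field F] {n : ℕ}

/-- The restriction `Φ(λ(y, t))` of a polynomial `Φ` to the curves, a polynomial in `t`. -/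
noncomputable def restrict (c : CurveFamily F n) (Φ : MvPolynomial (Fin n) F) :
    Polynomial (MvPolynomial (Fin n) F) :=
  aeval c.curve Φ

/-- The vector field `y ↦ d/dt λ(y, t) |_{t = 0}`, as a derivation of the polynomial ring. -/
noncomputable def velocity (c : CurveFamily F n) :
    Derivation F (MvPolynomial (Fin n) F) (MvPolynomial (Fin n) F) :=
  mkDerivation F (fun l => (c.curve l).coeff 1)

/-- The double cover `w² = Φ` has geometric genus at most one over the curves of the family: up to
the square of a polynomial, the restriction `Φ(λ(y, t))` has degree at most `4` in `t`. -/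
def GenusAtMostOne (c : CurveFamily F n) (Φ : MvPolynomial (Fin n) F) : Prop :=
  ∃ q s : Polynomial (MvPolynomial (Fin n) F), c.restrict Φ = q * s ^ 2 ∧ q.natDegree ≤ 4

/-- The velocity vector field of the family is transversal to the hypersurface `Φ = 0` at `r`. -/
def TransversalAt (c : CurveFamily F n) (Φ : MvPolynomial (Fin n) F) (r : Fin n → F) : Prop :=
  eval r (c.velocity Φ) ≠ 0

end CurveFamily

/-- Families of curves are *bracket generating* at a point `r` if the values at `r` of the members
of the Lie algebra generated by their velocity vector fields span the tangent space of affine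
space at `r`. -/
def BracketGenerating {F : Type*} [Field F] {n s : ℕ} (c : Fin s → CurveFamily F n)
    (r : Fin n → F) : Prop :=
  Submodule.span F {v : Fin n → F |
    ∃ D ∈ LieSubalgebra.lieSpan F (Derivation F (MvPolynomial (Fin n) F)
      (MvPolynomial (Fin n) F)) (Set.range fun i => (c i).velocity),
      v = fun l => eval r (D (X l))} = ⊤

end Pool.Agent.W572
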