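import Pool.Agent.W572.Defs

set_option autoImplicit false

/-!
# Triple covers of affine space
-/

namespace Pool.Agent.W572

open MvPolynomial AlgebraicGeometry CategoryTheory

/-- The affine cyclic triple cover `w³ = Φ(y₁, …, yₙ)` of affine `n`-space over `k₀`. -/
noncomputable def tripleCover {k₀ : Type} [Field k₀] {n : ℕ} (Φ : MvPolynomial (Fin n) k₀) :
    Scheme.{0} :=
  Spec (.of (AdjoinRoot (Polynomial.X ^ 3 - Polynomial.C Φ)))

/-- The structure morphism of the affine triple cover `w³ = Φ(y₁, …, yₙ)` over `k₀`. -/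
noncomputable def tripleCoverStr {k₀ : Type} [Field k₀] {n : ℕ} (Φ : MvPolynomial (Fin n) k₀) :
    tripleCover Φ ⟶ Spec (.of k₀) :=
  Spec.map (CommRingCat.ofHom (algebraMap k₀ (AdjoinRoot (Polynomial.X ^ 3 - Polynomial.C Φ))))

/-- The triple cover `w³ = Φ` has geometric genus at most one over the curves of the family: up to
the cube of a polynomial, the restriction `Φ(λ(y, t))` has degree at most `3` in `t`. -/
def CurveFamily.TripleGenusAtMostOne {F : Type*} [Field F] {n : ℕ} (c : CurveFamily F n)
    (Φ : MvPolynomial (Fin n) F) : Prop :=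
  ∃ q s : Polynomial (MvPolynomial (Fin n) F), c.restrict Φ = q * s ^ 3 ∧ q.natDegree ≤ 3

end Pool.Agent.W572
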