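import Mathlib

set_option autoImplicit false

namespace Pool.Agent.W572

open MvPolynomial

variable {F : Type*} [Field F] {σ : Type*}

/-- Substituting the polynomial curve `lam` (with `lam l` a polynomial in `t` whose coefficients are
polynomials in the base point) in `H` gives a polynomial in `t`; its value. -/
lemma eval_curve (lam : σ → Polynomial (MvPolynomial σ F)) (H : MvPolynomial σ F) (x : σ → F)
    (t : F) :
    (((aeval lam) H).map (eval x)).eval t = eval (fun l => ((lam l).map (eval x)).eval t) H := by
  induction H using MvPolynomial.induction_on with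
  | C a =>
    rw [algHom_C, eval_C]
    have : (algebraMap F (Polynomial (MvPolynomial σ F))) a = Polynomial.C (C a) := rfl
    rw [this, Polynomial.map_C, Polynomial.eval_C, eval_C]
  | add p q hp hq => rw [map_add, Polynomial.map_add, Polynomial.eval_add, hp, hq, map_add]
  | mul_X p i hp =>
    rw [map_mul, aeval_X, Polynomial.map_mul, Polynomial.eval_mul, hp, map_mul, eval_X]

lemma coeff_zero_curve (lam : σ → Polynomial (MvPolynomial σ F)) (h0 : ∀ l, (lam l).coeff 0 = X l)
    (H : MvPolynomial σ F) : ((aeval lam) H).coeff 0 = H := by
  induction H using MvPolynomial.induction_on with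
  | C a =>
    rw [algHom_C]
    have : (algebraMap F (Polynomial (MvPolynomial σ F))) a = Polynomial.C (C a) := rfl
    rw [this, Polynomial.coeff_C_zero]
  | add p q hp hq => rw [map_add, Polynomial.coeff_add, hp, hq]
  | mul_X p i hp => rw [map_mul, aeval_X, Polynomial.mul_coeff_zero, hp, h0]

/-- The derivation attached to a family of polynomial curves. -/
noncomputable def dir (lam : σ → Polynomial (MvPolynomial σ F)) :
    Derivation F (MvPolynomial σ F) (MvPolynomial σ F) :=
  mkDerivation F (fun l => (lam l).coeff 1)

lemma coeff_one_curve (lam : σ → Polynomial (MvPolynomial σ F)) (h0 : ∀ l, (lam l).coeff 0 = X l)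
    (H : MvPolynomial σ F) : ((aeval lam) H).coeff 1 = dir lam H := by
  induction H using MvPolynomial.induction_on with
  | C a =>
    rw [algHom_C]
    have : (algebraMap F (Polynomial (MvPolynomial σ F))) a = Polynomial.C (C a) := rfl
    rw [this, Polynomial.coeff_C]
    simp [dir]
  | add p q hp hq => rw [map_add, Polynomial.coeff_add, hp, hq, map_add]
  | mul_X p i hp =>
    rw [map_mul, aeval_X, Polynomial.mul_coeff_one, hp, h0, coeff_zero_curve lam h0,
      Derivation.leibniz, dir, mkDerivation_X]
    simp only [smul_eq_mul]
    ring

/-- A set of polynomials closed under partial derivatives all of whose members vanish at some point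
is zero. -/
lemma zero_of_pderiv_closed [CharZero F] [Finite σ] (I : Set (MvPolynomial σ F)) (x : σ → F)
    (hx : ∀ H ∈ I, eval x H = 0) (hI : ∀ H ∈ I, ∀ l, pderiv l H ∈ I) :
    ∀ H ∈ I, H = 0 := by
  classical
  have key : ∀ d : ℕ, ∀ H ∈ I, H.totalDegree ≤ d → H = 0 := by
    intro d
    induction d with
    | zero =>
      intro H hH hd
      have h1 : H = C (coeff 0 H) := totalDegree_eq_zero_iff_eq_C.mp (Nat.le_zero.mp hd)
      have h2 := hx H hH
      rw [h1, eval_C] at h2
      rw [h1, h2, C_0]
    | succ d ih =>
      intro H hH hd
      have h0 : ∀ l, pderiv l H = 0 := by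
        intro l
        apply ih _ (hI H hH l)
        refine Finset.sup_le (fun m hm => ?_)
        rw [mem_support_iff, coeff_pderiv] at hm
        have h1 : coeff (m + Finsupp.single l 1) H ≠ 0 := left_ne_zero_of_mul hm
        have h2 := (le_totalDegree (mem_support_iff.mpr h1)).trans hd
        rw [Finsupp.sum_add_index' (by simp) (by intros; simp)] at h2
        rw [Finsupp.sum_single_index (by simp)] at h2
        omega
      have h1 : H = C (coeff 0 H) := by
        ext m
        rw [coeff_C]
        split_ifs with hm
        · rw [← hm]
        · have : ∃ l, m l ≠ 0 := by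
            by_contra hcon
            push Not at hcon
            exact hm (Finsupp.ext (fun l => (hcon l).symm))
          obtain ⟨l, hl⟩ := this
          have h2 := congrArg (coeff (m - Finsupp.single l 1)) (h0 l)
          rw [coeff_pderiv, coeff_zero] at h2
          have h3 : m - Finsupp.single l 1 + Finsupp.single l 1 = m := by
            apply tsub_add_cancel_of_le
            rw [Finsupp.single_le_iff]
            omega
          rw [h3] at h2
          rcases mul_eq_zero.mp h2 with h4 | h4
          · exact h4
          · exfalso
            exact Nat.cast_add_one_ne_zero _ h4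
      have h2 := hx H hH
      rw [h1, eval_C] at h2
      rw [h1, h2, C_0]
  intro H hH
  exact key _ H hH le_rfl

lemma derivation_eq_sum [Fintype σ] (D : Derivation F (MvPolynomial σ F) (MvPolynomial σ F))
    (H : MvPolynomial σ F) : D H = ∑ l, pderiv l H * D (X l) := by
  classical
  induction H using MvPolynomial.induction_on with
  | C a => simp [derivation_C]
  | add p q hp hq => simp only [map_add, hp, hq, add_mul, Finset.sum_add_distrib]
  | mul_X p i hp =>
    rw [Derivation.leibniz, hp]
    simp only [Derivation.leibniz, smul_eq_mul, pderiv_X, add_mul, Finset.sum_add_distrib]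
    congr 1
    · rw [Finset.sum_eq_single i]
      · simp
      · intro b _ hb
        simp [hb.symm]
      · simp
    · rw [Finset.mul_sum]
      refine Finset.sum_congr rfl (fun l _ => by ring)

/-- If a nonempty set `T` of points is such that through each of its points every curve of a
bracket-generating collection of families of polynomial curves meets `T` infinitely often, then `T`
is Zariski dense. -/
theorem dense_of_moves [CharZero F] [Fintype σ] [DecidableEq σ] {ι : Type*} (T : Set (σ → F))
    (hT : T.Nonempty)
    (lam : ι → σ → Polynomial (MvPolynomial σ F)) (h0 : ∀ i l, (lam i l).coeff 0 = X l)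
    (hmove : ∀ x ∈ T, ∀ i,
      {t : F | (fun l => ((lam i l).map (eval x)).eval t) ∈ T}.Infinite)
    (E : σ → Derivation F (MvPolynomial σ F) (MvPolynomial σ F))
    (hE : ∀ l, E l ∈ LieSubalgebra.lieSpan F (Derivation F (MvPolynomial σ F)
        (MvPolynomial σ F)) (Set.range (fun i => dir (lam i))))
    (hgen : ∀ x ∈ T, (Matrix.of fun l m => eval x (E l (X m))).det ≠ 0) :
    ∀ H : MvPolynomial σ F, (∀ x ∈ T, eval x H = 0) → H = 0 := by
  classical
  set I : Set (MvPolynomial σ F) := {H | ∀ x ∈ T, eval x H = 0} with hI
  have hdir : ∀ i, ∀ H ∈ I, dir (lam i) H ∈ I := by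
    intro i H hH x hx
    have hp : ((aeval (lam i)) H).map (eval x) = 0 := by
      apply Polynomial.eq_zero_of_infinite_isRoot
      refine (hmove x hx i).mono ?_
      intro t ht
      rw [Set.mem_ofPred_eq, Polynomial.IsRoot, eval_curve]
      exact hH _ ht
    have h1 := congrArg (fun p => Polynomial.coeff p 1) hp
    simp only [Polynomial.coeff_map, Polynomial.coeff_zero] at h1
    rwa [coeff_one_curve _ (h0 i)] at h1
  -- the Lie subalgebra of derivations preserving `I`
  let K : LieSubalgebra F (Derivation F (MvPolynomial σ F) (MvPolynomial σ F)) :=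
    { carrier := {D | ∀ H ∈ I, D H ∈ I}
      add_mem' := by
        intro D E hD hE H hH x hx
        rw [Derivation.add_apply, map_add, hD H hH x hx, hE H hH x hx, add_zero]
      zero_mem' := by
        intro H hH x hx
        simp
      smul_mem' := by
        intro c D hD H hH x hx
        rw [Derivation.smul_apply, smul_eval, hD H hH x hx, mul_zero]
      lie_mem' := by
        intro D E hD hE H hH x hx
        rw [Derivation.commutator_apply, map_sub, hD _ (hE H hH) x hx, hE _ (hD H hH) x hx,
          sub_zero] }
  have hK : LieSubalgebra.lieSpan F (Derivation F (MvPolynomial σ F)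
        (MvPolynomial σ F)) (Set.range (fun i => dir (lam i))) ≤ K := by
    rw [LieSubalgebra.lieSpan_le]
    rintro _ ⟨i, rfl⟩
    exact hdir i
  have hpd : ∀ H ∈ I, ∀ l, pderiv l H ∈ I := by
    intro H hH l x hx
    have hz : (Matrix.of fun l m => eval x (E l (X m))).mulVec
        (fun m => eval x (pderiv m H)) = 0 := by
      funext a
      have h1 : eval x (E a H) = 0 := hK (hE a) H hH x hx
      rw [derivation_eq_sum (E a) H, map_sum] at h1
      rw [Matrix.mulVec, dotProduct, Pi.zero_apply, ← h1]
      exact Finset.sum_congr rfl (fun m _ => by rw [map_mul, Matrix.of_apply, mul_comm])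
    exact congrFun (Matrix.eq_zero_of_mulVec_eq_zero (hgen x hx) hz) l
  obtain ⟨x₀, hx₀⟩ := hT
  exact zero_of_pderiv_closed I x₀ (fun H hH => hH x₀ hx₀) hpd

end Pool.Agent.W572
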