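import Mathlib

set_option autoImplicit false

namespace Pool.Agent.W572

/-- A field embedding of an algebraic closure of a number field in an algebraic closure of `ℚ_p`. -/
theorem exists_embedding (p : ℕ) [Fact p.Prime] (k₀ : Type) [Field k₀] [NumberField k₀] :
    Nonempty (AlgebraicClosure k₀ →+* PadicAlgCl p) := by
  haveI : Algebra.IsAlgebraic ℚ k₀ := Algebra.IsAlgebraic.of_finite ℚ k₀
  haveI : Algebra.IsAlgebraic ℚ (AlgebraicClosure k₀) := Algebra.IsAlgebraic.trans ℚ k₀ _
  exact ⟨(IsAlgClosed.lift : AlgebraicClosure k₀ →ₐ[ℚ] PadicAlgCl p).toRingHom⟩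

/-- A `p`-adic norm on an algebraic closure of a number field. -/
theorem exists_norm (p : ℕ) [Fact p.Prime] (k₀ : Type) [Field k₀] [NumberField k₀] :
    ∃ (N : NormedField (AlgebraicClosure k₀)), N.toField = AlgebraicClosure.instField k₀ := by
  obtain ⟨ι⟩ := exists_embedding p k₀
  exact ⟨NormedField.induced _ _ ι ι.injective, rfl⟩

end Pool.Agent.W572
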