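import Pool.Agent.W572.Step

set_option autoImplicit false

namespace Pool.Agent.W572

variable {F : Type*} [NormedField F] [IsUltrametricDist F]

/-- The set of good parameters on a curve `w² = f0 + f1 t + f2 t² + f3 t³ + f4 t⁴`. -/
def goodSet (S : Subfield F) (f0 f1 f2 f3 f4 : F) (R W : ℝ) : Set F :=
  {t | t ∈ S ∧ ‖t‖ ≤ R ∧ ∃ w ∈ S, w ≠ 0 ∧
    w ^ 2 = f0 + f1 * t + f2 * t ^ 2 + f3 * t ^ 3 + f4 * t ^ 4 ∧ ‖w‖ ≤ W}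

omit [IsUltrametricDist F] in
lemma ofNat_mem (S : Subfield F) (n : ℕ) [n.AtLeastTwo] : (OfNat.ofNat n : F) ∈ S := by
  have h : ((OfNat.ofNat n : ℕ) : F) ∈ S := natCast_mem S _
  rwa [Nat.cast_ofNat] at h

theorem orbit_normalized (S : Subfield F) (h3 : ‖(3 : F)‖ < 1) (h30 : (3 : F) ≠ 0)
    {c0 c1 c2 c3 c4 w0 : F}
    (m0 : c0 ∈ S) (m1 : c1 ∈ S) (m2 : c2 ∈ S) (m3 : c3 ∈ S) (m4 : c4 ∈ S) (mw : w0 ∈ S)
    (hw : w0 ^ 2 = c0) (hw0 : w0 ≠ 0) (hc1 : ‖c1‖ = 1) (hc2 : ‖c2‖ ≤ 1) (hc3 : ‖c3‖ ≤ 1)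
    (hc4 : ‖c4‖ ≤ 1) (h0 : ‖c0‖ < ‖(3 : F)‖) :
    (goodSet S c0 c1 c2 c3 c4 ‖c0‖ ‖w0‖).Infinite := by
  have h3n : ‖(3 : F)‖ ≤ 1 := h3.le
  have h3p : 0 < ‖(3 : F)‖ := norm_pos_iff.mpr h30
  have hc0 : ‖c0‖ < 1 := h0.trans_le h3n
  have hc1' : ‖c1‖ ≤ 1 := hc1.le
  have key : ∀ m : ℕ, ∃ t w : F, t ∈ S ∧ w ∈ S ∧ ‖t‖ ≤ ‖c0‖ ∧
      w ^ 2 = c0 + c1 * t + c2 * t ^ 2 + c3 * t ^ 3 + c4 * t ^ 4 ∧
      ‖w‖ = ‖(3 : F)‖ ^ m * ‖w0‖ := by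
    intro m
    induction m with
    | zero => exact ⟨0, w0, S.zero_mem, mw, by simp, by rw [hw]; ring, by simp⟩
    | succ m ih =>
      obtain ⟨t, w, ht, hwS, htn, hwt, hwn⟩ := ih
      have ht1 : ‖t‖ ≤ 1 := htn.trans hc0.le
      set g0 := w ^ 2 with hg0
      set g1 := c1 + 2 * c2 * t + 3 * c3 * t ^ 2 + 4 * c4 * t ^ 3 with hg1
      set g2 := c2 + 3 * c3 * t + 6 * c4 * t ^ 2 with hg2
      set g3 := c3 + 4 * c4 * t with hg3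
      have n2 : ‖(2 : F)‖ ≤ 1 := nofnat 2
      have n3 : ‖(3 : F)‖ ≤ 1 := nofnat 3
      have n4 : ‖(4 : F)‖ ≤ 1 := nofnat 4
      have n6 : ‖(6 : F)‖ ≤ 1 := nofnat 6
      have hg1n : ‖g1‖ = 1 := by
        rw [← hc1]
        apply nlt_eq
        rw [hc1]
        have h1 : g1 - c1 = 2 * c2 * t + 3 * c3 * t ^ 2 + 4 * c4 * t ^ 3 := by rw [hg1]; ring
        rw [h1]
        refine lt_of_le_of_lt (nadd (nadd ?_ ?_) ?_) hc0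
        · exact nmul' (nmul n2 hc2) htn
        · rw [pow_two]; exact nmul' (nmul n3 hc3) (nmul htn ht1)
        · rw [pow_succ]; exact nmul' (nmul n4 hc4) (nmul' (npow ht1 2) htn)
      have hg2n : ‖g2‖ ≤ 1 :=
        nadd (nadd hc2 (nmul (nmul n3 hc3) ht1)) (nmul (nmul n6 hc4) (npow ht1 2))
      have hg3n : ‖g3‖ ≤ 1 := nadd hc3 (nmul (nmul n4 hc4) ht1)
      have hwle : ‖w‖ ≤ ‖w0‖ := by
        rw [hwn]
        exact mul_le_of_le_one_left (norm_nonneg _) (pow_le_one₀ (norm_nonneg _) h3n)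
      have hg0n : ‖g0‖ ≤ ‖c0‖ := by
        rw [hg0, ← hw, norm_pow, norm_pow]
        exact pow_le_pow_left₀ (norm_nonneg _) hwle 2
      obtain ⟨e1, e2, e3⟩ := step2 (f0 := g0) (f1 := g1) (f2 := g2) (f3 := g3) (f4 := c4)
        (w := w) rfl hg1n hg2n hg3n hc4 (hg0n.trans_lt h0) _ _ _ rfl rfl rfl
      set A := g1 ^ 2 - 4 * g0 * g2 with hA
      set Q := A ^ 2 - 64 * g0 ^ 3 * c4 with hQ
      set ρ := (g1 * A + 8 * g0 ^ 2 * g3) / Q with hρ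
      have mg0 : g0 ∈ S := S.pow_mem hwS 2
      have mg1 : g1 ∈ S := S.add_mem (S.add_mem (S.add_mem m1
        (S.mul_mem (S.mul_mem (ofNat_mem S 2) m2) ht))
        (S.mul_mem (S.mul_mem (ofNat_mem S 3) m3) (S.pow_mem ht 2)))
        (S.mul_mem (S.mul_mem (ofNat_mem S 4) m4) (S.pow_mem ht 3))
      have mg2 : g2 ∈ S := S.add_mem (S.add_mem m2
        (S.mul_mem (S.mul_mem (ofNat_mem S 3) m3) ht))
        (S.mul_mem (S.mul_mem (ofNat_mem S 6) m4) (S.pow_mem ht 2))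
      have mg3 : g3 ∈ S := S.add_mem m3 (S.mul_mem (S.mul_mem (ofNat_mem S 4) m4) ht)
      have mA : A ∈ S := S.sub_mem (S.pow_mem mg1 2)
        (S.mul_mem (S.mul_mem (ofNat_mem S 4) mg0) mg2)
      have mQ : Q ∈ S := S.sub_mem (S.pow_mem mA 2)
        (S.mul_mem (S.mul_mem (ofNat_mem S 64) (S.pow_mem mg0 3)) m4)
      have mρ : ρ ∈ S := S.div_mem (S.add_mem (S.mul_mem mg1 mA)
        (S.mul_mem (S.mul_mem (ofNat_mem S 8) (S.pow_mem mg0 2)) mg3)) mQ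
      refine ⟨t + 8 * g0 * ρ, w * (8 * A * ρ ^ 2 - 4 * g1 * ρ - 1), ?_, ?_, ?_, ?_, ?_⟩
      · exact S.add_mem ht (S.mul_mem (S.mul_mem (ofNat_mem S 8) mg0) mρ)
      · refine S.mul_mem hwS (S.sub_mem (S.sub_mem ?_ ?_) S.one_mem)
        · exact S.mul_mem (S.mul_mem (ofNat_mem S 8) mA) (S.pow_mem mρ 2)
        · exact S.mul_mem (S.mul_mem (ofNat_mem S 4) mg1) mρ
      · exact nadd htn (e2.trans hg0n)
      · rw [← e1]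
        have hg0' : g0 = c0 + c1 * t + c2 * t ^ 2 + c3 * t ^ 3 + c4 * t ^ 4 := hwt
        generalize 8 * g0 * ρ = τ
        rw [hg0', hg1, hg2, hg3]
        ring
      · rw [e3, hwn, pow_succ]; ring
  choose t w ht hwS htn hwt hwn using key
  have hinj : Function.Injective t := by
    intro a b hab
    have h1 : ‖w a‖ ^ 2 = ‖w b‖ ^ 2 := by
      rw [← norm_pow, ← norm_pow, hwt a, hwt b, hab]
    have h2 : ‖w a‖ = ‖w b‖ := by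
      have := (sq_eq_sq₀ (norm_nonneg (w a)) (norm_nonneg (w b))).mp h1
      exact this
    rw [hwn a, hwn b] at h2
    have h5 := mul_right_cancel₀ (norm_ne_zero_iff.mpr hw0) h2
    exact pow_right_injective₀ h3p h3.ne h5
  refine Set.infinite_of_injective_forall_mem hinj (fun m => ⟨ht m, htn m, w m, hwS m, ?_,
    hwt m, ?_⟩)
  · intro h
    have := hwn m
    rw [h, norm_zero] at this
    have h4 : 0 < ‖(3 : F)‖ ^ m * ‖w0‖ := by positivity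
    linarith
  · rw [hwn m]
    exact mul_le_of_le_one_left (norm_nonneg _) (pow_le_one₀ (norm_nonneg _) h3n)

/-- Infinitely many good parameters near a branch point, without normalization. -/
theorem orbit (S : Subfield F) (h3 : ‖(3 : F)‖ < 1) (h30 : (3 : F) ≠ 0)
    {f0 f1 f2 f3 f4 w γ : F}
    (m1 : f1 ∈ S) (m2 : f2 ∈ S) (m3 : f3 ∈ S) (m4 : f4 ∈ S) (mw : w ∈ S) (mγ : γ ∈ S)
    (hw : w ^ 2 = f0) (hw0 : w ≠ 0) (hf1 : f1 ≠ 0) (hγ : γ ≠ 0)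
    (hf2 : ‖f2‖ * ‖γ‖ ^ 2 ≤ ‖f1‖ ^ 2) (hf3 : ‖f3‖ * ‖γ‖ ^ 4 ≤ ‖f1‖ ^ 3)
    (hf4 : ‖f4‖ * ‖γ‖ ^ 6 ≤ ‖f1‖ ^ 4) (h0 : ‖w‖ ^ 2 < ‖(3 : F)‖ * ‖γ‖ ^ 2) :
    (goodSet S f0 f1 f2 f3 f4 (‖w‖ ^ 2 / ‖f1‖) ‖w‖).Infinite := by
  have hf1n : 0 < ‖f1‖ := norm_pos_iff.mpr hf1
  have hγn : 0 < ‖γ‖ := norm_pos_iff.mpr hγ
  set β := γ ^ 2 / f1 with hβ
  have hβ0 : β ≠ 0 := div_ne_zero (pow_ne_zero 2 hγ) hf1
  have mβ : β ∈ S := S.div_mem (S.pow_mem mγ 2) m1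
  have hβn : ‖β‖ = ‖γ‖ ^ 2 / ‖f1‖ := by rw [hβ, norm_div, norm_pow]
  have mγ2 : γ ^ 2 ∈ S := S.pow_mem mγ 2
  have hinf := orbit_normalized S h3 h30 (c0 := f0 / γ ^ 2) (c1 := 1)
    (c2 := f2 * β ^ 2 / γ ^ 2) (c3 := f3 * β ^ 3 / γ ^ 2) (c4 := f4 * β ^ 4 / γ ^ 2)
    (w0 := w / γ) (S.div_mem (hw ▸ S.pow_mem mw 2) mγ2) S.one_mem
    (S.div_mem (S.mul_mem m2 (S.pow_mem mβ 2)) mγ2)
    (S.div_mem (S.mul_mem m3 (S.pow_mem mβ 3)) mγ2)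
    (S.div_mem (S.mul_mem m4 (S.pow_mem mβ 4)) mγ2) (S.div_mem mw mγ)
    (by rw [div_pow, hw]) (div_ne_zero hw0 hγ) (by simp) ?_ ?_ ?_ ?_
  · refine (hinf.image (f := fun σ => β * σ) (fun a _ b _ h => mul_left_cancel₀ hβ0 h)).mono ?_
    rintro _ ⟨σ, ⟨hσS, hσn, w', hw'S, hw'0, hw'e, hw'n⟩, rfl⟩
    refine ⟨S.mul_mem mβ hσS, ?_, γ * w', S.mul_mem mγ hw'S, mul_ne_zero hγ hw'0, ?_, ?_⟩
    · rw [norm_mul, hβn]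
      calc ‖γ‖ ^ 2 / ‖f1‖ * ‖σ‖ ≤ ‖γ‖ ^ 2 / ‖f1‖ * ‖f0 / γ ^ 2‖ :=
            mul_le_mul_of_nonneg_left hσn (by positivity)
        _ = ‖w‖ ^ 2 / ‖f1‖ := by
            rw [norm_div, norm_pow, ← hw, norm_pow]; field_simp
    · rw [mul_pow, hw'e]
      have e1 : f1 * β = γ ^ 2 := by rw [hβ]; field_simp
      have e2 : γ ^ 2 * (f0 / γ ^ 2 + 1 * σ + f2 * β ^ 2 / γ ^ 2 * σ ^ 2 +
          f3 * β ^ 3 / γ ^ 2 * σ ^ 3 + f4 * β ^ 4 / γ ^ 2 * σ ^ 4) =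
          f0 + γ ^ 2 * σ + f2 * (β * σ) ^ 2 + f3 * (β * σ) ^ 3 + f4 * (β * σ) ^ 4 := by
        generalize β = b
        field_simp
      rw [e2, ← e1]; ring
    · rw [norm_mul]
      calc ‖γ‖ * ‖w'‖ ≤ ‖γ‖ * ‖w / γ‖ := mul_le_mul_of_nonneg_left hw'n (norm_nonneg _)
        _ = ‖w‖ := by rw [norm_div]; field_simp
  · rw [norm_div, norm_mul, norm_pow, norm_pow, hβn, div_le_one (by positivity)]
    rw [div_pow, mul_div_assoc', div_le_iff₀ (by positivity)]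
    calc ‖f2‖ * (‖γ‖ ^ 2) ^ 2 = (‖f2‖ * ‖γ‖ ^ 2) * ‖γ‖ ^ 2 := by ring
      _ ≤ ‖f1‖ ^ 2 * ‖γ‖ ^ 2 := mul_le_mul_of_nonneg_right hf2 (by positivity)
      _ = ‖γ‖ ^ 2 * ‖f1‖ ^ 2 := by ring
  · rw [norm_div, norm_mul, norm_pow, norm_pow, hβn, div_le_one (by positivity)]
    rw [div_pow, mul_div_assoc', div_le_iff₀ (by positivity)]
    calc ‖f3‖ * (‖γ‖ ^ 2) ^ 3 = (‖f3‖ * ‖γ‖ ^ 4) * ‖γ‖ ^ 2 := by ring
      _ ≤ ‖f1‖ ^ 3 * ‖γ‖ ^ 2 := mul_le_mul_of_nonneg_right hf3 (by positivity)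
      _ = ‖γ‖ ^ 2 * ‖f1‖ ^ 3 := by ring
  · rw [norm_div, norm_mul, norm_pow, norm_pow, hβn, div_le_one (by positivity)]
    rw [div_pow, mul_div_assoc', div_le_iff₀ (by positivity)]
    calc ‖f4‖ * (‖γ‖ ^ 2) ^ 4 = (‖f4‖ * ‖γ‖ ^ 6) * ‖γ‖ ^ 2 := by ring
      _ ≤ ‖f1‖ ^ 4 * ‖γ‖ ^ 2 := mul_le_mul_of_nonneg_right hf4 (by positivity)
      _ = ‖γ‖ ^ 2 * ‖f1‖ ^ 4 := by ring
  · rw [norm_div, norm_pow, div_lt_iff₀ (by positivity), ← hw, norm_pow]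
    exact h0

end Pool.Agent.W572
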