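import Pool.Agent.W572.Orbit

set_option autoImplicit false

/-!
# The tangent process on `w³ = f(t)`, `deg f ≤ 3`, near a branch point
-/

namespace Pool.Agent.W572

variable {F : Type*} [NormedField F] [IsUltrametricDist F]

/-- The contraction step on `w³ = f(t)`, `f` of degree `≤ 3`, near a branch point. -/
theorem step3 {f0 f1 f2 f3 w : F} (hw : w ^ 3 = f0) (hf1 : ‖f1‖ = 1)
    (hf2 : ‖f2‖ ≤ 1) (hf3 : ‖f3‖ ≤ 1) (h0 : ‖f0‖ < ‖(2 : F)‖) :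
    ∀ Q ρ : F, Q = f1 ^ 3 - 27 * f0 ^ 2 * f3 → ρ = (3 * f0 * f2 - f1 ^ 2) / Q →
      f0 + f1 * (9 * f0 * ρ) + f2 * (9 * f0 * ρ) ^ 2 + f3 * (9 * f0 * ρ) ^ 3 =
        (w * (1 + 3 * f1 * ρ)) ^ 3 ∧
      ‖9 * f0 * ρ‖ ≤ ‖f0‖ ∧ ‖w * (1 + 3 * f1 * ρ)‖ = ‖(2 : F)‖ * ‖w‖ := by
  intro Q ρ hQ hρ
  have h2 : ‖(2 : F)‖ ≤ 1 := nofnat 2
  have h01 : ‖f0‖ ≤ 1 := (h0.trans_le h2).le
  have h01' : ‖f0‖ < 1 := h0.trans_le h2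
  have hf1' : ‖f1‖ ≤ 1 := hf1.le
  set e := ‖f0‖ with he
  have h3 : ‖(3 : F)‖ ≤ 1 := nofnat 3
  have h9 : ‖(9 : F)‖ ≤ 1 := nofnat 9
  have h27 : ‖(27 : F)‖ ≤ 1 := nofnat 27
  have hf02 : ‖f0 ^ 2‖ ≤ e := by
    rw [pow_two]; exact nmul' h01 he.ge
  have hf13 : ‖f1 ^ 3‖ = 1 := by rw [norm_pow, hf1]; norm_num
  have hf12 : ‖f1 ^ 2‖ = 1 := by rw [norm_pow, hf1]; norm_num
  have hQA : ‖Q - f1 ^ 3‖ ≤ e := by
    have : Q - f1 ^ 3 = -(27 * f0 ^ 2 * f3) := by rw [hQ]; ring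
    rw [this, norm_neg]
    exact nmul (nmul' h27 hf02) hf3
  have hQn : ‖Q‖ = 1 := by
    rw [← hf13]; apply nlt_eq; rw [hf13]; exact hQA.trans_lt h01'
  have hQ0 : Q ≠ 0 := by
    intro h; rw [h, norm_zero] at hQn; norm_num at hQn
  have hρn : ‖ρ‖ ≤ 1 := by
    rw [hρ, norm_div, hQn, div_one]
    exact nsub (nmul (nmul h3 h01) hf2) hf12.le
  have hρQ : ρ * Q = 3 * f0 * f2 - f1 ^ 2 := by
    rw [hρ]; field_simp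
  have h2' : ‖1 + 3 * f1 * ρ‖ = ‖(2 : F)‖ := by
    have h4 : ‖(1 + 3 * f1 * ρ) * Q‖ = ‖(-(2 * f1 ^ 3) : F)‖ := by
      apply nlt_eq
      have h5 : (1 + 3 * f1 * ρ) * Q - -(2 * f1 ^ 3) =
          9 * f0 * (f1 * f2) - 27 * f0 ^ 2 * f3 := by
        have : (1 + 3 * f1 * ρ) * Q = Q + 3 * f1 * (ρ * Q) := by ring
        rw [this, hρQ, hQ]; ring
      rw [h5]
      have h6 : ‖(-(2 * f1 ^ 3) : F)‖ = ‖(2 : F)‖ := by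
        rw [norm_neg, norm_mul, hf13, mul_one]
      rw [h6]
      refine lt_of_le_of_lt (nsub (nmul (nmul' h9 he.ge) ?_) (nmul (nmul' h27 hf02) hf3)) h0
      exact nmul hf1' hf2
    rw [norm_mul, hQn, mul_one, norm_neg, norm_mul, hf13, mul_one] at h4
    exact h4
  refine ⟨?_, nmul (nmul' h9 he.ge) hρn, ?_⟩
  · have hid : f0 + f1 * (9 * f0 * ρ) + f2 * (9 * f0 * ρ) ^ 2 + f3 * (9 * f0 * ρ) ^ 3 -
        f0 * (1 + 3 * f1 * ρ) ^ 3 =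
        27 * f0 * ρ ^ 2 * (3 * f0 * f2 - f1 ^ 2 - ρ * Q) := by
      rw [hQ]; ring
    rw [mul_pow w, hw, ← sub_eq_zero, hid, hρQ]
    ring
  · rw [norm_mul, h2', mul_comm]

/-- The set of good parameters on a curve `w³ = f0 + f1 t + f2 t² + f3 t³`. -/
def goodSetC (S : Subfield F) (f0 f1 f2 f3 : F) (R W : ℝ) : Set F :=
  {t | t ∈ S ∧ ‖t‖ ≤ R ∧ ∃ w ∈ S, w ≠ 0 ∧
    w ^ 3 = f0 + f1 * t + f2 * t ^ 2 + f3 * t ^ 3 ∧ ‖w‖ ≤ W}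

theorem orbitC_normalized (S : Subfield F) (h2 : ‖(2 : F)‖ < 1) (h20 : (2 : F) ≠ 0)
    {c0 c1 c2 c3 w0 : F}
    (m1 : c1 ∈ S) (m2 : c2 ∈ S) (m3 : c3 ∈ S) (mw : w0 ∈ S)
    (hw : w0 ^ 3 = c0) (hw0 : w0 ≠ 0) (hc1 : ‖c1‖ = 1) (hc2 : ‖c2‖ ≤ 1) (hc3 : ‖c3‖ ≤ 1)
    (h0 : ‖c0‖ < ‖(2 : F)‖) :
    (goodSetC S c0 c1 c2 c3 ‖c0‖ ‖w0‖).Infinite := by
  have h2n : ‖(2 : F)‖ ≤ 1 := h2.le
  have h2p : 0 < ‖(2 : F)‖ := norm_pos_iff.mpr h20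
  have hc0 : ‖c0‖ < 1 := h0.trans_le h2n
  have key : ∀ m : ℕ, ∃ t w : F, t ∈ S ∧ w ∈ S ∧ ‖t‖ ≤ ‖c0‖ ∧
      w ^ 3 = c0 + c1 * t + c2 * t ^ 2 + c3 * t ^ 3 ∧
      ‖w‖ = ‖(2 : F)‖ ^ m * ‖w0‖ := by
    intro m
    induction m with
    | zero => exact ⟨0, w0, S.zero_mem, mw, by simp, by rw [hw]; ring, by simp⟩
    | succ m ih =>
      obtain ⟨t, w, ht, hwS, htn, hwt, hwn⟩ := ih
      have ht1 : ‖t‖ ≤ 1 := htn.trans hc0.le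
      set g0 := w ^ 3 with hg0
      set g1 := c1 + 2 * c2 * t + 3 * c3 * t ^ 2 with hg1
      set g2 := c2 + 3 * c3 * t with hg2
      have n2 : ‖(2 : F)‖ ≤ 1 := nofnat 2
      have n3 : ‖(3 : F)‖ ≤ 1 := nofnat 3
      have hg1n : ‖g1‖ = 1 := by
        rw [← hc1]
        apply nlt_eq
        rw [hc1]
        have h1 : g1 - c1 = 2 * c2 * t + 3 * c3 * t ^ 2 := by rw [hg1]; ring
        rw [h1]
        refine lt_of_le_of_lt (nadd ?_ ?_) hc0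
        · exact nmul' (nmul n2 hc2) htn
        · rw [pow_two]; exact nmul' (nmul n3 hc3) (nmul htn ht1)
      have hg2n : ‖g2‖ ≤ 1 := nadd hc2 (nmul (nmul n3 hc3) ht1)
      have hwle : ‖w‖ ≤ ‖w0‖ := by
        rw [hwn]
        exact mul_le_of_le_one_left (norm_nonneg _) (pow_le_one₀ (norm_nonneg _) h2n)
      have hg0n : ‖g0‖ ≤ ‖c0‖ := by
        rw [hg0, ← hw, norm_pow, norm_pow]
        exact pow_le_pow_left₀ (norm_nonneg _) hwle 3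
      obtain ⟨e1, e2, e3⟩ := step3 (f0 := g0) (f1 := g1) (f2 := g2) (f3 := c3)
        (w := w) rfl hg1n hg2n hc3 (hg0n.trans_lt h0) _ _ rfl rfl
      set Q := g1 ^ 3 - 27 * g0 ^ 2 * c3 with hQ
      set ρ := (3 * g0 * g2 - g1 ^ 2) / Q with hρ
      have mg0 : g0 ∈ S := S.pow_mem hwS 3
      have mg1 : g1 ∈ S := S.add_mem (S.add_mem m1
        (S.mul_mem (S.mul_mem (ofNat_mem S 2) m2) ht))
        (S.mul_mem (S.mul_mem (ofNat_mem S 3) m3) (S.pow_mem ht 2))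
      have mg2 : g2 ∈ S := S.add_mem m2 (S.mul_mem (S.mul_mem (ofNat_mem S 3) m3) ht)
      have mQ : Q ∈ S := S.sub_mem (S.pow_mem mg1 3)
        (S.mul_mem (S.mul_mem (ofNat_mem S 27) (S.pow_mem mg0 2)) m3)
      have mρ : ρ ∈ S := S.div_mem (S.sub_mem (S.mul_mem (S.mul_mem (ofNat_mem S 3) mg0) mg2)
        (S.pow_mem mg1 2)) mQ
      refine ⟨t + 9 * g0 * ρ, w * (1 + 3 * g1 * ρ), ?_, ?_, ?_, ?_, ?_⟩
      · exact S.add_mem ht (S.mul_mem (S.mul_mem (ofNat_mem S 9) mg0) mρ)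
      · exact S.mul_mem hwS (S.add_mem S.one_mem
          (S.mul_mem (S.mul_mem (ofNat_mem S 3) mg1) mρ))
      · exact nadd htn (e2.trans hg0n)
      · rw [← e1]
        have hg0' : g0 = c0 + c1 * t + c2 * t ^ 2 + c3 * t ^ 3 := hwt
        generalize 9 * g0 * ρ = τ
        rw [hg0', hg1, hg2]
        ring
      · rw [e3, hwn, pow_succ]; ring
  choose t w ht hwS htn hwt hwn using key
  have hinj : Function.Injective t := by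
    intro a b hab
    have h1 : ‖w a‖ ^ 3 = ‖w b‖ ^ 3 := by
      rw [← norm_pow, ← norm_pow, hwt a, hwt b, hab]
    have h2' : ‖w a‖ = ‖w b‖ :=
      (pow_left_inj₀ (norm_nonneg _) (norm_nonneg _) (by norm_num)).mp h1
    rw [hwn a, hwn b] at h2'
    have h5 := mul_right_cancel₀ (norm_ne_zero_iff.mpr hw0) h2'
    exact pow_right_injective₀ h2p h2.ne h5
  refine Set.infinite_of_injective_forall_mem hinj (fun m => ⟨ht m, htn m, w m, hwS m, ?_,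
    hwt m, ?_⟩)
  · intro h
    have := hwn m
    rw [h, norm_zero] at this
    have h4 : 0 < ‖(2 : F)‖ ^ m * ‖w0‖ := by positivity
    linarith
  · rw [hwn m]
    exact mul_le_of_le_one_left (norm_nonneg _) (pow_le_one₀ (norm_nonneg _) h2n)

/-- Infinitely many good parameters near a branch point, without normalization. -/
theorem orbitC (S : Subfield F) (h2 : ‖(2 : F)‖ < 1) (h20 : (2 : F) ≠ 0)
    {f0 f1 f2 f3 w γ : F}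
    (m1 : f1 ∈ S) (m2 : f2 ∈ S) (m3 : f3 ∈ S) (mw : w ∈ S) (mγ : γ ∈ S)
    (hw : w ^ 3 = f0) (hw0 : w ≠ 0) (hf1 : f1 ≠ 0) (hγ : γ ≠ 0)
    (hf2 : ‖f2‖ * ‖γ‖ ^ 3 ≤ ‖f1‖ ^ 2) (hf3 : ‖f3‖ * ‖γ‖ ^ 6 ≤ ‖f1‖ ^ 3)
    (h0 : ‖w‖ ^ 3 < ‖(2 : F)‖ * ‖γ‖ ^ 3) :
    (goodSetC S f0 f1 f2 f3 (‖w‖ ^ 3 / ‖f1‖) ‖w‖).Infinite := by
  have hf1n : 0 < ‖f1‖ := norm_pos_iff.mpr hf1
  have hγn : 0 < ‖γ‖ := norm_pos_iff.mpr hγ
  set β := γ ^ 3 / f1 with hβ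
  have hβ0 : β ≠ 0 := div_ne_zero (pow_ne_zero 3 hγ) hf1
  have mβ : β ∈ S := S.div_mem (S.pow_mem mγ 3) m1
  have hβn : ‖β‖ = ‖γ‖ ^ 3 / ‖f1‖ := by rw [hβ, norm_div, norm_pow]
  have mγ3 : γ ^ 3 ∈ S := S.pow_mem mγ 3
  have hinf := orbitC_normalized S h2 h20 (c0 := f0 / γ ^ 3) (c1 := 1)
    (c2 := f2 * β ^ 2 / γ ^ 3) (c3 := f3 * β ^ 3 / γ ^ 3)
    (w0 := w / γ) S.one_mem
    (S.div_mem (S.mul_mem m2 (S.pow_mem mβ 2)) mγ3)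
    (S.div_mem (S.mul_mem m3 (S.pow_mem mβ 3)) mγ3)
    (S.div_mem mw mγ)
    (by rw [div_pow, hw]) (div_ne_zero hw0 hγ) (by simp) ?_ ?_ ?_
  · refine (hinf.image (f := fun σ => β * σ) (fun a _ b _ h => mul_left_cancel₀ hβ0 h)).mono ?_
    rintro _ ⟨σ, ⟨hσS, hσn, w', hw'S, hw'0, hw'e, hw'n⟩, rfl⟩
    refine ⟨S.mul_mem mβ hσS, ?_, γ * w', S.mul_mem mγ hw'S, mul_ne_zero hγ hw'0, ?_, ?_⟩
    · rw [norm_mul, hβn]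
      calc ‖γ‖ ^ 3 / ‖f1‖ * ‖σ‖ ≤ ‖γ‖ ^ 3 / ‖f1‖ * ‖f0 / γ ^ 3‖ :=
            mul_le_mul_of_nonneg_left hσn (by positivity)
        _ = ‖w‖ ^ 3 / ‖f1‖ := by
            rw [norm_div, norm_pow, ← hw, norm_pow]; field_simp
    · rw [mul_pow, hw'e]
      have e1 : f1 * β = γ ^ 3 := by rw [hβ]; field_simp
      have e2 : γ ^ 3 * (f0 / γ ^ 3 + 1 * σ + f2 * β ^ 2 / γ ^ 3 * σ ^ 2 +
          f3 * β ^ 3 / γ ^ 3 * σ ^ 3) =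
          f0 + γ ^ 3 * σ + f2 * (β * σ) ^ 2 + f3 * (β * σ) ^ 3 := by
        generalize β = b
        field_simp
      rw [e2, ← e1]; ring
    · rw [norm_mul]
      calc ‖γ‖ * ‖w'‖ ≤ ‖γ‖ * ‖w / γ‖ := mul_le_mul_of_nonneg_left hw'n (norm_nonneg _)
        _ = ‖w‖ := by rw [norm_div]; field_simp
  · rw [norm_div, norm_mul, norm_pow, norm_pow, hβn, div_le_one (by positivity)]
    rw [div_pow, mul_div_assoc', div_le_iff₀ (by positivity)]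
    calc ‖f2‖ * (‖γ‖ ^ 3) ^ 2 = (‖f2‖ * ‖γ‖ ^ 3) * ‖γ‖ ^ 3 := by ring
      _ ≤ ‖f1‖ ^ 2 * ‖γ‖ ^ 3 := mul_le_mul_of_nonneg_right hf2 (by positivity)
      _ = ‖γ‖ ^ 3 * ‖f1‖ ^ 2 := by ring
  · rw [norm_div, norm_mul, norm_pow, norm_pow, hβn, div_le_one (by positivity)]
    rw [div_pow, mul_div_assoc', div_le_iff₀ (by positivity)]
    calc ‖f3‖ * (‖γ‖ ^ 3) ^ 3 = (‖f3‖ * ‖γ‖ ^ 6) * ‖γ‖ ^ 3 := by ring
      _ ≤ ‖f1‖ ^ 3 * ‖γ‖ ^ 3 := mul_le_mul_of_nonneg_right hf3 (by positivity)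
      _ = ‖γ‖ ^ 3 * ‖f1‖ ^ 3 := by ring
  · rw [norm_div, norm_pow, div_lt_iff₀ (by positivity), ← hw, norm_pow]
    exact h0

end Pool.Agent.W572
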