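import Pool.Agent.W572.Core
import Pool.Agent.W572.NormQ
import Pool.Agent.W572.Defs

set_option autoImplicit false

namespace Pool.Agent.W572

open MvPolynomial

lemma exists_frame {F : Type*} [Field F] {n s : ℕ} (c : Fin s → CurveFamily F n) (r : Fin n → F)
    (hgen : BracketGenerating c r) :
    ∃ E : Fin n → Derivation F (MvPolynomial (Fin n) F) (MvPolynomial (Fin n) F),
      (∀ l, E l ∈ LieSubalgebra.lieSpan F (Derivation F (MvPolynomial (Fin n) F)
        (MvPolynomial (Fin n) F)) (Set.range (fun i => dir (c i).curve))) ∧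
      (Matrix.of fun l m => eval r (E l (X m))).det ≠ 0 := by
  classical
  set K := LieSubalgebra.lieSpan F (Derivation F (MvPolynomial (Fin n) F)
        (MvPolynomial (Fin n) F)) (Set.range (fun i => dir (c i).curve)) with hK
  let ev : Derivation F (MvPolynomial (Fin n) F) (MvPolynomial (Fin n) F) →ₗ[F] (Fin n → F) :=
    { toFun := fun D l => eval r (D (X l))
      map_add' := by intro D E; funext l; simp
      map_smul' := by intro a D; funext l; simp [smul_eval] }
  have h1 : (⊤ : Submodule F (Fin n → F)) ≤ K.toSubmodule.map ev := by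
    rw [← hgen, Submodule.span_le]
    rintro v ⟨D, hD, rfl⟩
    exact ⟨D, hD, rfl⟩
  have h2 : ∀ l : Fin n, ∃ D ∈ K, ev D = Pi.single l 1 := by
    intro l
    obtain ⟨D, hD, h⟩ := h1 (x := Pi.single l 1) trivial
    exact ⟨D, hD, h⟩
  choose E hE hE2 using h2
  refine ⟨E, hE, ?_⟩
  have h3 : (Matrix.of fun l m => eval r (E l (X m))) = (1 : Matrix (Fin n) (Fin n) F) := by
    ext l m
    have := congrFun (hE2 l) m
    simp only [Matrix.of_apply]
    change eval r (E l (X m)) = _ at this
    rw [this, Matrix.one_apply, Pi.single_apply]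
    simp [eq_comm]
  rw [h3, Matrix.det_one]
  exact one_ne_zero

/-- The core density statement over an algebraic closure of a number field, without norms. -/
theorem dense_points (k₀ : Type) [Field k₀] [NumberField k₀] {n s : ℕ} (hs : 0 < s)
    (Φ : MvPolynomial (Fin n) k₀) (c : Fin s → CurveFamily (AlgebraicClosure k₀) n)
    (h4 : ∀ i, (c i).GenusAtMostOne (map (algebraMap k₀ (AlgebraicClosure k₀)) Φ))
    (r : Fin n → AlgebraicClosure k₀) (hr : aeval r Φ = 0)
    (hD : ∀ i, (c i).TransversalAt (map (algebraMap k₀ (AlgebraicClosure k₀)) Φ) r)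
    (hgen : BracketGenerating c r) :
    ∃ L : IntermediateField k₀ (AlgebraicClosure k₀), FiniteDimensional k₀ L ∧
      ∀ G : MvPolynomial (Fin n) (AlgebraicClosure k₀),
        (∀ x : Fin n → AlgebraicClosure k₀, (∀ l, x l ∈ L) →
          (∃ w ∈ L, w ≠ 0 ∧ w ^ 2 = aeval x Φ) → eval x G = 0) → G = 0 := by
  classical
  obtain ⟨E, hE, hdet⟩ := exists_frame c r hgen
  choose q v hqv h4 using h4
  have : Nonempty (Fin s) := ⟨⟨0, hs⟩⟩
  have : Fact (Nat.Prime 3) := ⟨by norm_num⟩
  set Φ' := map (algebraMap k₀ (AlgebraicClosure k₀)) Φ with hΦ'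
  have hr' : eval r Φ' = 0 := by
    rw [hΦ', eval_map, ← aeval_def, hr]
  -- the starting point `y` given by the core theorem
  have hcore : ∃ y : Fin n → AlgebraicClosure k₀, ∀ S : Subfield (AlgebraicClosure k₀),
      (∀ i l, (c i).curve l ∈ PS (σ := Fin n) S) →
      (∀ i, q i ∈ PS (σ := Fin n) S) → (∀ i, v i ∈ PS (σ := Fin n) S) → (∀ l, r l ∈ S) → (∃ w ∈ S, w ^ 2 = eval y Φ') →
      ∀ H : MvPolynomial (Fin n) (AlgebraicClosure k₀), (∀ x : Fin n → AlgebraicClosure k₀,
        (∀ l, x l ∈ S) → (∃ w ∈ S, w ≠ 0 ∧ w ^ 2 = eval x Φ') → eval x H = 0) → H = 0 := by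
    obtain ⟨ι⟩ := exists_embedding 3 k₀
    letI : NormedField (AlgebraicClosure k₀) := NormedField.induced _ _ ι ι.injective
    have hn : ∀ x : AlgebraicClosure k₀, ‖x‖ = ‖ι x‖ := fun x => rfl
    have : IsUltrametricDist (AlgebraicClosure k₀) :=
      IsUltrametricDist.isUltrametricDist_of_forall_norm_add_le_max_norm (fun x y => by
        rw [hn, hn, hn, map_add]; exact PadicAlgCl.isNonarchimedean 3 _ _)
    have h3 : ‖(3 : AlgebraicClosure k₀)‖ < 1 := by
      rw [hn, map_ofNat]
      have h1 : ((3 : ℕ) : PadicAlgCl 3) = algebraMap ℚ_[3] (PadicAlgCl 3) ((3 : ℕ) : ℚ_[3]) :=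
        (map_natCast (algebraMap ℚ_[3] (PadicAlgCl 3)) 3).symm
      have h2 : ‖((3 : ℕ) : PadicAlgCl 3)‖ = 3⁻¹ := by
        rw [h1]
        refine (PadicAlgCl.norm_extends 3 _).trans ?_
        simpa using Padic.norm_p (p := 3)
      have h4 : (OfNat.ofNat 3 : PadicAlgCl 3) = ((3 : ℕ) : PadicAlgCl 3) := by norm_num
      rw [h4, h2]; norm_num
    exact core h3 Φ' (fun i => (c i).curve) (fun i l => (c i).base l) q v hqv h4 r hr' hD E hE
      hdet
  obtain ⟨y, hy⟩ := hcore
  obtain ⟨w₀, hw₀⟩ := IsAlgClosed.exists_pow_nat_eq (eval y Φ') (n := 2) (by norm_num)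
  -- the finite set of elements to adjoin
  let A₁ : Set (AlgebraicClosure k₀) := Set.range r
  let A₂ : Set (AlgebraicClosure k₀) := ⋃ i : Fin s, ⋃ l : Fin n,
    ⋃ j ∈ ((c i).curve l).support, ((((c i).curve l).coeff j).coeffs : Set (AlgebraicClosure k₀))
  let A₃ : Set (AlgebraicClosure k₀) := ⋃ i : Fin s,
    ⋃ j ∈ (q i).support, (((q i).coeff j).coeffs : Set (AlgebraicClosure k₀))
  let A₄ : Set (AlgebraicClosure k₀) := ⋃ i : Fin s,
    ⋃ j ∈ (v i).support, (((v i).coeff j).coeffs : Set (AlgebraicClosure k₀))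
  let A : Set (AlgebraicClosure k₀) := A₁ ∪ (A₂ ∪ (A₃ ∪ (A₄ ∪ {w₀})))
  have hA : A.Finite := by
    refine (Set.finite_range r).union (Set.Finite.union ?_ (Set.Finite.union ?_
      (Set.Finite.union ?_ (Set.finite_singleton _))))
    · refine Set.finite_iUnion (fun i => Set.finite_iUnion (fun l => ?_))
      exact Set.Finite.biUnion (Finset.finite_toSet _) (fun j _ => Finset.finite_toSet _)
    · refine Set.finite_iUnion (fun i => ?_)
      exact Set.Finite.biUnion (Finset.finite_toSet _) (fun j _ => Finset.finite_toSet _)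
    · refine Set.finite_iUnion (fun i => ?_)
      exact Set.Finite.biUnion (Finset.finite_toSet _) (fun j _ => Finset.finite_toSet _)
  have : Finite A := hA
  refine ⟨IntermediateField.adjoin k₀ A, ?_, ?_⟩
  · exact IntermediateField.finiteDimensional_adjoin
      (fun x _ => Algebra.IsIntegral.isIntegral x)
  · intro G hG
    have hsub : A ⊆ IntermediateField.adjoin k₀ A := IntermediateField.subset_adjoin _ _
    have hcoef : ∀ p : Polynomial (MvPolynomial (Fin n) (AlgebraicClosure k₀)),
        (∀ j ∈ p.support, ((p.coeff j).coeffs : Set (AlgebraicClosure k₀)) ⊆ A) →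
        p ∈ PS (σ := Fin n) (IntermediateField.adjoin k₀ A).toSubfield := by
      intro p hp
      apply PS_of_coeff
      intro j
      apply RS_of_coeff
      intro m
      by_cases hm : coeff m (p.coeff j) = 0
      · rw [hm]; exact Subfield.zero_mem _
      · have hj : p.coeff j ≠ 0 := by
          intro h; rw [h, coeff_zero] at hm; exact hm rfl
        exact hsub (hp j (Polynomial.mem_support_iff.mpr hj)
          (MvPolynomial.coeff_mem_coeffs m hm))
    refine hy (IntermediateField.adjoin k₀ A).toSubfield ?_ ?_ ?_ ?_ ?_ G ?_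
    · intro i l
      refine hcoef _ (fun j hj a ha => Or.inr (Or.inl ?_))
      simp only [A₂, Set.mem_iUnion]
      exact ⟨i, l, j, hj, ha⟩
    · intro i
      refine hcoef _ (fun j hj a ha => Or.inr (Or.inr (Or.inl ?_)))
      simp only [A₃, Set.mem_iUnion]
      exact ⟨i, j, hj, ha⟩
    · intro i
      refine hcoef _ (fun j hj a ha => Or.inr (Or.inr (Or.inr (Or.inl ?_))))
      simp only [A₄, Set.mem_iUnion]
      exact ⟨i, j, hj, ha⟩
    · intro l
      exact hsub (Or.inl ⟨l, rfl⟩)
    · exact ⟨w₀, hsub (Or.inr (Or.inr (Or.inr (Or.inr rfl)))), hw₀⟩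
    · intro x hx hw
      apply hG x hx
      obtain ⟨w, h1, h2, h3⟩ := hw
      refine ⟨w, h1, h2, ?_⟩
      rw [h3, hΦ', eval_map, ← aeval_def]

end Pool.Agent.W572
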