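import Pool.Agent.W572.CoreC
import Pool.Agent.W572.Points
import Pool.Agent.W572.DefsC

set_option autoImplicit false

namespace Pool.Agent.W572

open MvPolynomial

/-- The core density statement over an algebraic closure of a number field, without norms. -/
theorem dense_pointsC (k₀ : Type) [Field k₀] [NumberField k₀] {n s : ℕ} (hs : 0 < s)
    (Φ : MvPolynomial (Fin n) k₀) (c : Fin s → CurveFamily (AlgebraicClosure k₀) n)
    (h4 : ∀ i, (c i).TripleGenusAtMostOne (map (algebraMap k₀ (AlgebraicClosure k₀)) Φ))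
    (r : Fin n → AlgebraicClosure k₀) (hr : aeval r Φ = 0)
    (hD : ∀ i, (c i).TransversalAt (map (algebraMap k₀ (AlgebraicClosure k₀)) Φ) r)
    (hgen : BracketGenerating c r) :
    ∃ L : IntermediateField k₀ (AlgebraicClosure k₀), FiniteDimensional k₀ L ∧
      (∃ ζ ∈ L, IsPrimitiveRoot ζ 3) ∧
      ∀ G : MvPolynomial (Fin n) (AlgebraicClosure k₀),
        (∀ x : Fin n → AlgebraicClosure k₀, (∀ l, x l ∈ L) →
          (∃ w ∈ L, w ≠ 0 ∧ w ^ 3 = aeval x Φ) → eval x G = 0) → G = 0 := by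
  classical
  obtain ⟨E, hE, hdet⟩ := exists_frame c r hgen
  choose q v hqv h4 using h4
  have : Nonempty (Fin s) := ⟨⟨0, hs⟩⟩
  have : Fact (Nat.Prime 2) := ⟨by norm_num⟩
  set Φ' := map (algebraMap k₀ (AlgebraicClosure k₀)) Φ with hΦ'
  have hr' : eval r Φ' = 0 := by
    rw [hΦ', eval_map, ← aeval_def, hr]
  -- the starting point `y` given by the core theorem
  have hcore : ∃ y : Fin n → AlgebraicClosure k₀, ∀ S : Subfield (AlgebraicClosure k₀),
      (∀ i l, (c i).curve l ∈ PS (σ := Fin n) S) →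
      (∀ i, q i ∈ PS (σ := Fin n) S) → (∀ i, v i ∈ PS (σ := Fin n) S) → (∀ l, r l ∈ S) → (∃ w ∈ S, w ^ 3 = eval y Φ') →
      ∀ H : MvPolynomial (Fin n) (AlgebraicClosure k₀), (∀ x : Fin n → AlgebraicClosure k₀,
        (∀ l, x l ∈ S) → (∃ w ∈ S, w ≠ 0 ∧ w ^ 3 = eval x Φ') → eval x H = 0) → H = 0 := by
    obtain ⟨ι⟩ := exists_embedding 2 k₀
    letI : NormedField (AlgebraicClosure k₀) := NormedField.induced _ _ ι ι.injective
    have hn : ∀ x : AlgebraicClosure k₀, ‖x‖ = ‖ι x‖ := fun x => rfl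
    have : IsUltrametricDist (AlgebraicClosure k₀) :=
      IsUltrametricDist.isUltrametricDist_of_forall_norm_add_le_max_norm (fun x y => by
        rw [hn, hn, hn, map_add]; exact PadicAlgCl.isNonarchimedean 2 _ _)
    have h2 : ‖(2 : AlgebraicClosure k₀)‖ < 1 := by
      rw [hn, map_ofNat]
      have h1 : ((2 : ℕ) : PadicAlgCl 2) = algebraMap ℚ_[2] (PadicAlgCl 2) ((2 : ℕ) : ℚ_[2]) :=
        (map_natCast (algebraMap ℚ_[2] (PadicAlgCl 2)) 2).symm
      have h2 : ‖((2 : ℕ) : PadicAlgCl 2)‖ = 2⁻¹ := by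
        rw [h1]
        refine (PadicAlgCl.norm_extends 2 _).trans ?_
        simpa using Padic.norm_p (p := 2)
      have h4 : (OfNat.ofNat 2 : PadicAlgCl 2) = ((2 : ℕ) : PadicAlgCl 2) := by norm_num
      rw [h4, h2]; norm_num
    exact coreC h2 Φ' (fun i => (c i).curve) (fun i l => (c i).base l) q v hqv h4 r hr' hD E hE
      hdet
  obtain ⟨y, hy⟩ := hcore
  obtain ⟨w₀, hw₀⟩ := IsAlgClosed.exists_pow_nat_eq (eval y Φ') (n := 3) (by norm_num)
  obtain ⟨ζ, hζ⟩ := HasEnoughRootsOfUnity.exists_primitiveRoot (AlgebraicClosure k₀) 3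
  -- the finite set of elements to adjoin
  let A₁ : Set (AlgebraicClosure k₀) := Set.range r
  let A₂ : Set (AlgebraicClosure k₀) := ⋃ i : Fin s, ⋃ l : Fin n,
    ⋃ j ∈ ((c i).curve l).support, ((((c i).curve l).coeff j).coeffs : Set (AlgebraicClosure k₀))
  let A₃ : Set (AlgebraicClosure k₀) := ⋃ i : Fin s,
    ⋃ j ∈ (q i).support, (((q i).coeff j).coeffs : Set (AlgebraicClosure k₀))
  let A₄ : Set (AlgebraicClosure k₀) := ⋃ i : Fin s,
    ⋃ j ∈ (v i).support, (((v i).coeff j).coeffs : Set (AlgebraicClosure k₀))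
  let A : Set (AlgebraicClosure k₀) := A₁ ∪ (A₂ ∪ (A₃ ∪ (A₄ ∪ {w₀, ζ})))
  have hA : A.Finite := by
    refine (Set.finite_range r).union (Set.Finite.union ?_ (Set.Finite.union ?_
      (Set.Finite.union ?_ (Set.toFinite _))))
    · refine Set.finite_iUnion (fun i => Set.finite_iUnion (fun l => ?_))
      exact Set.Finite.biUnion (Finset.finite_toSet _) (fun j _ => Finset.finite_toSet _)
    · refine Set.finite_iUnion (fun i => ?_)
      exact Set.Finite.biUnion (Finset.finite_toSet _) (fun j _ => Finset.finite_toSet _)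
    · refine Set.finite_iUnion (fun i => ?_)
      exact Set.Finite.biUnion (Finset.finite_toSet _) (fun j _ => Finset.finite_toSet _)
  have : Finite A := hA
  refine ⟨IntermediateField.adjoin k₀ A, ?_, ⟨ζ, IntermediateField.subset_adjoin _ _
    (Or.inr (Or.inr (Or.inr (Or.inr (Or.inr rfl))))), hζ⟩, ?_⟩
  · exact IntermediateField.finiteDimensional_adjoin
      (fun x _ => Algebra.IsIntegral.isIntegral x)
  · intro G hG
    have hsub : A ⊆ IntermediateField.adjoin k₀ A := IntermediateField.subset_adjoin _ _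
    have hcoef : ∀ p : Polynomial (MvPolynomial (Fin n) (AlgebraicClosure k₀)),
        (∀ j ∈ p.support, ((p.coeff j).coeffs : Set (AlgebraicClosure k₀)) ⊆ A) →
        p ∈ PS (σ := Fin n) (IntermediateField.adjoin k₀ A).toSubfield := by
      intro p hp
      apply PS_of_coeff
      intro j
      apply RS_of_coeff
      intro m
      by_cases hm : coeff m (p.coeff j) = 0
      · rw [hm]; exact Subfield.zero_mem _
      · have hj : p.coeff j ≠ 0 := by
          intro h; rw [h, coeff_zero] at hm; exact hm rfl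
        exact hsub (hp j (Polynomial.mem_support_iff.mpr hj)
          (MvPolynomial.coeff_mem_coeffs m hm))
    refine hy (IntermediateField.adjoin k₀ A).toSubfield ?_ ?_ ?_ ?_ ?_ G ?_
    · intro i l
      refine hcoef _ (fun j hj a ha => Or.inr (Or.inl ?_))
      simp only [A₂, Set.mem_iUnion]
      exact ⟨i, l, j, hj, ha⟩
    · intro i
      refine hcoef _ (fun j hj a ha => Or.inr (Or.inr (Or.inl ?_)))
      simp only [A₃, Set.mem_iUnion]
      exact ⟨i, j, hj, ha⟩
    · intro i
      refine hcoef _ (fun j hj a ha => Or.inr (Or.inr (Or.inr (Or.inl ?_))))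
      simp only [A₄, Set.mem_iUnion]
      exact ⟨i, j, hj, ha⟩
    · intro l
      exact hsub (Or.inl ⟨l, rfl⟩)
    · exact ⟨w₀, hsub (Or.inr (Or.inr (Or.inr (Or.inr (Or.inl rfl))))), hw₀⟩
    · intro x hx hw
      apply hG x hx
      obtain ⟨w, h1, h2, h3⟩ := hw
      refine ⟨w, h1, h2, ?_⟩
      rw [h3, hΦ', eval_map, ← aeval_def]

end Pool.Agent.W572
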