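import Mathlib

set_option autoImplicit false

namespace Pool.Agent.W572

section Basic
variable {F : Type*} [NormedField F] [IsUltrametricDist F]

lemma nadd {x y : F} {e : ℝ} (hx : ‖x‖ ≤ e) (hy : ‖y‖ ≤ e) : ‖x + y‖ ≤ e :=
  (IsUltrametricDist.norm_add_le_max x y).trans (max_le hx hy)

lemma nsub {x y : F} {e : ℝ} (hx : ‖x‖ ≤ e) (hy : ‖y‖ ≤ e) : ‖x - y‖ ≤ e := by
  rw [sub_eq_add_neg]; exact nadd hx (by rwa [norm_neg])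

omit [IsUltrametricDist F] in
lemma nmul {x y : F} {e : ℝ} (hx : ‖x‖ ≤ e) (hy : ‖y‖ ≤ 1) : ‖x * y‖ ≤ e := by
  rw [norm_mul]
  calc ‖x‖ * ‖y‖ ≤ ‖x‖ * 1 := mul_le_mul_of_nonneg_left hy (norm_nonneg _)
    _ ≤ e := by simpa using hx

omit [IsUltrametricDist F] in
lemma nmul' {x y : F} {e : ℝ} (hx : ‖x‖ ≤ 1) (hy : ‖y‖ ≤ e) : ‖x * y‖ ≤ e := by
  rw [mul_comm]; exact nmul hy hx

omit [IsUltrametricDist F] in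
lemma npow {x : F} (hx : ‖x‖ ≤ 1) (n : ℕ) : ‖x ^ n‖ ≤ 1 := by
  rw [norm_pow]; exact pow_le_one₀ (norm_nonneg _) hx

lemma nlt_eq {x y : F} (h : ‖x - y‖ < ‖y‖) : ‖x‖ = ‖y‖ := by
  have h1 : ‖x - y‖ ≠ ‖y‖ := h.ne
  have h2 := IsUltrametricDist.norm_add_eq_max_of_norm_ne_norm h1
  rw [sub_add_cancel] at h2
  rw [h2, max_eq_right h.le]

lemma nnat (n : ℕ) : ‖(n : F)‖ ≤ 1 := IsUltrametricDist.norm_natCast_le_one F n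

lemma nofnat (n : ℕ) [n.AtLeastTwo] : ‖(OfNat.ofNat n : F)‖ ≤ 1 := by
  have := nnat (F := F) (OfNat.ofNat n)
  rwa [Nat.cast_ofNat] at this

end Basic

section Step
variable {F : Type*} [NormedField F] [IsUltrametricDist F]

/-- The contraction step on `w² = f(t)`, `f` of degree `≤ 4`, near a branch point. -/
theorem step2 {f0 f1 f2 f3 f4 w : F} (hw : w ^ 2 = f0) (hf1 : ‖f1‖ = 1)
    (hf2 : ‖f2‖ ≤ 1) (hf3 : ‖f3‖ ≤ 1) (hf4 : ‖f4‖ ≤ 1) (h0 : ‖f0‖ < ‖(3 : F)‖) :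
    ∀ A Q ρ : F, A = f1 ^ 2 - 4 * f0 * f2 → Q = A ^ 2 - 64 * f0 ^ 3 * f4 →
      ρ = (f1 * A + 8 * f0 ^ 2 * f3) / Q →
      f0 + f1 * (8 * f0 * ρ) + f2 * (8 * f0 * ρ) ^ 2 + f3 * (8 * f0 * ρ) ^ 3 +
        f4 * (8 * f0 * ρ) ^ 4 = (w * (8 * A * ρ ^ 2 - 4 * f1 * ρ - 1)) ^ 2 ∧
      ‖8 * f0 * ρ‖ ≤ ‖f0‖ ∧ ‖w * (8 * A * ρ ^ 2 - 4 * f1 * ρ - 1)‖ = ‖(3 : F)‖ * ‖w‖ := by
  intro A Q ρ hA hQ hρ
  have h3 : ‖(3 : F)‖ ≤ 1 := nofnat 3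
  have h01 : ‖f0‖ ≤ 1 := (h0.trans_le h3).le
  have h01' : ‖f0‖ < 1 := (h0.trans_le h3)
  have hf1' : ‖f1‖ ≤ 1 := hf1.le
  set e := ‖f0‖ with he
  have h4 : ‖(4 : F)‖ ≤ 1 := nofnat 4
  have h8 : ‖(8 : F)‖ ≤ 1 := nofnat 8
  have h64 : ‖(64 : F)‖ ≤ 1 := nofnat 64
  have hAf : ‖A - f1 ^ 2‖ ≤ e := by
    have : A - f1 ^ 2 = -(4 * f0 * f2) := by rw [hA]; ring
    rw [this, norm_neg]
    exact nmul (nmul' h4 he.ge) hf2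
  have hf1sq : ‖f1 ^ 2‖ = 1 := by rw [norm_pow, hf1]; norm_num
  have hAn : ‖A‖ = 1 := by
    rw [← hf1sq]; apply nlt_eq; rw [hf1sq]; exact hAf.trans_lt h01'
  have hA1 : ‖A‖ ≤ 1 := hAn.le
  have hf03 : ‖f0 ^ 3‖ ≤ e := by
    rw [pow_succ]; exact nmul' (npow h01 2) he.ge
  have hf02 : ‖f0 ^ 2‖ ≤ e := by
    rw [pow_two]; exact nmul' h01 he.ge
  have hQA : ‖Q - A ^ 2‖ ≤ e := by
    have : Q - A ^ 2 = -(64 * f0 ^ 3 * f4) := by rw [hQ]; ring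
    rw [this, norm_neg]
    exact nmul (nmul' h64 hf03) hf4
  have hAsq : ‖A ^ 2‖ = 1 := by rw [norm_pow, hAn]; norm_num
  have hQn : ‖Q‖ = 1 := by
    rw [← hAsq]; apply nlt_eq; rw [hAsq]; exact hQA.trans_lt h01'
  have hQ0 : Q ≠ 0 := by
    intro h; rw [h, norm_zero] at hQn; norm_num at hQn
  have hρn : ‖ρ‖ ≤ 1 := by
    rw [hρ, norm_div, hQn, div_one]
    exact nadd (nmul hf1' hA1) (nmul (nmul' h8 (npow h01 2)) hf3)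
  have hρQ : ρ * Q = f1 * A + 8 * f0 ^ 2 * f3 := by
    rw [hρ]; field_simp
  have hfρ : ‖f1 * ρ - 1‖ ≤ e := by
    have h1 : (f1 * ρ - 1) * Q = -(A * (A - f1 ^ 2)) + f1 * (8 * f0 ^ 2 * f3) - (Q - A ^ 2) := by
      have : (f1 * ρ - 1) * Q = f1 * (ρ * Q) - Q := by ring
      rw [this, hρQ]; ring
    have h2 : ‖(f1 * ρ - 1) * Q‖ ≤ e := by
      rw [h1]
      refine nsub (nadd ?_ ?_) hQA
      · rw [norm_neg]; exact nmul' hA1 hAf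
      · exact nmul' hf1' (nmul (nmul' h8 hf02) hf3)
    rwa [norm_mul, hQn, mul_one] at h2
  have hAρ : ‖A * ρ ^ 2 - 1‖ ≤ e := by
    have h1 : A * ρ ^ 2 - 1 = (A - f1 ^ 2) * ρ ^ 2 + (f1 * ρ - 1) * (f1 * ρ + 1) := by ring
    rw [h1]
    refine nadd (nmul hAf (npow hρn 2)) (nmul hfρ ?_)
    exact nadd (nmul hf1' hρn) (by simp)
  have h3' : ‖8 * A * ρ ^ 2 - 4 * f1 * ρ - 1‖ = ‖(3 : F)‖ := by
    apply nlt_eq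
    have h1 : 8 * A * ρ ^ 2 - 4 * f1 * ρ - 1 - 3 = 8 * (A * ρ ^ 2 - 1) - 4 * (f1 * ρ - 1) := by
      ring
    rw [h1]
    refine lt_of_le_of_lt (nsub (nmul' h8 hAρ) (nmul' h4 hfρ)) h0
  refine ⟨?_, nmul (nmul' h8 he.ge) hρn, ?_⟩
  · have hid : f0 + f1 * (8 * f0 * ρ) + f2 * (8 * f0 * ρ) ^ 2 + f3 * (8 * f0 * ρ) ^ 3 +
        f4 * (8 * f0 * ρ) ^ 4 - f0 * (8 * A * ρ ^ 2 - 4 * f1 * ρ - 1) ^ 2 =
        64 * f0 * ρ ^ 3 * (f1 * A + 8 * f0 ^ 2 * f3 - ρ * Q) := by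
      rw [hQ, hA]; ring
    rw [mul_pow w, hw, ← sub_eq_zero, hid, hρQ]
    ring
  · rw [norm_mul, h3', mul_comm]

end Step

end Pool.Agent.W572
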